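import Pool.Agent.H459R3.NS.Final
import Pool.Agent.Q176.AN.Aniso

/-!
The anisotropic Sobolev inequality for periodic vector fields on the torus, in an arbitrary
orthonormal frame.
-/

set_option autoImplicit false

open MeasureTheory Set Filter Topology
open scoped InnerProductSpace ENNReal ContDiff NNReal

namespace Q176.AD

open H459R3.NS

/-- The Euclidean space, for directions. -/
abbrev E3 := EuclideanSpace ℝ (Fin 3)

/-- `∫ |∂_e v|²` over the period cell. -/
noncomputable def Dd (v : Fin 3 → V → ℝ) (e : E3) : ℝ :=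
  ∑ i, ∫ x in cube, (∑ j, e j * pd j (v i) x) ^ 2

/-- `∫ |v|²` over the period cell. -/
noncomputable def Nn (v : Fin 3 → V → ℝ) : ℝ := ∑ i, ∫ x in cube, v i x ^ 2

theorem bump : ∃ (χ : V → ℝ) (M : ℝ), 1 ≤ M ∧ ContDiff ℝ 1 χ ∧ HasCompactSupport χ ∧
    (∀ x ∈ cube, χ x = 1) ∧ (∀ x, 0 ≤ χ x ∧ χ x ≤ 1) ∧ (∀ x, x ∉ box → χ =ᶠ[𝓝 x] 0) ∧
    (∀ x, ‖fderiv ℝ χ x‖ ≤ M) := by
  set c : V := fun _ => 1 / 2 with hc
  let χ : ContDiffBump c := ⟨1 / 2, 1, by norm_num, by norm_num⟩
  have hχ1 : ∀ x ∈ cube, χ x = 1 := by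
    intro x hx
    refine χ.one_of_mem_closedBall ?_
    rw [Metric.mem_closedBall, dist_pi_le_iff (by norm_num)]
    intro i
    have h1 : 0 ≤ x i := hx.1 i
    have h2 : x i ≤ 1 := hx.2 i
    rw [Real.dist_eq, abs_le]
    constructor
    · show -(1 / 2 : ℝ) ≤ x i - 1 / 2
      linarith
    · show x i - 1 / 2 ≤ (1 / 2 : ℝ)
      linarith
  have hχs : ∀ x, x ∉ box → χ =ᶠ[𝓝 x] 0 := by
    intro x hx
    have h1 : x ∉ tsupport χ := by
      rw [χ.tsupport_eq]
      intro h2
      apply hx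
      rw [Metric.mem_closedBall, dist_pi_le_iff (by exact χ.rOut_pos.le)] at h2
      constructor
      · intro i
        have := h2 i
        rw [Real.dist_eq, abs_le] at this
        have h3 : -(1 : ℝ) ≤ x i - 1 / 2 := this.1
        show (-1 : ℝ) ≤ x i
        linarith
      · intro i
        have := h2 i
        rw [Real.dist_eq, abs_le] at this
        have h3 : x i - 1 / 2 ≤ (1 : ℝ) := this.2
        show x i ≤ (2 : ℝ)
        linarith
    exact notMem_tsupport_iff_eventuallyEq.1 h1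
  obtain ⟨M0, hM0⟩ : ∃ M, ∀ x, ‖fderiv ℝ χ x‖ ≤ M := by
    have h1 : HasCompactSupport (fderiv ℝ (χ : V → ℝ)) := χ.hasCompactSupport.fderiv (𝕜 := ℝ)
    have h2 : Continuous (fderiv ℝ (χ : V → ℝ)) :=
      (χ.contDiff (n := 1)).continuous_fderiv one_ne_zero
    exact h1.exists_bound_of_continuous h2
  exact ⟨χ, max M0 1, le_max_right _ _, χ.contDiff, χ.hasCompactSupport, hχ1,
    fun x => ⟨χ.nonneg, χ.le_one⟩, hχs, fun x => (hM0 x).trans (le_max_left _ _)⟩

theorem fderiv_eq_sum {f : V → ℝ} (x : V) (e : V) :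
    fderiv ℝ f x e = ∑ j, e j * pd j f x := by
  conv_lhs => rw [← Finset.univ_sum_single e]
  rw [map_sum]
  refine Finset.sum_congr rfl fun j _ => ?_
  have : (Pi.single j (e j) : V) = e j • Pi.single j 1 := by
    rw [← Pi.single_smul]; simp
  rw [this, map_smul]
  rfl

theorem norm_ofLp_le (e : E3) : ‖(WithLp.ofLp e : V)‖ ≤ ‖e‖ := by
  rw [pi_norm_le_iff_of_nonneg (norm_nonneg _)]
  intro i
  exact PiLp.norm_apply_le e i

theorem enorm_sq_E3 (x : E3) : ‖x‖ₑ ^ 2 = ENNReal.ofReal (∑ i, x i ^ 2) := by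
  rw [← ofReal_norm, ← ENNReal.ofReal_pow (norm_nonneg _), EuclideanSpace.norm_sq_eq]
  simp

/-- The anisotropic Sobolev inequality on the torus. -/
theorem six_aniso : ∃ C : ℝ, 0 < C ∧ ∀ (v : Fin 3 → V → ℝ), (∀ i, SP (v i)) →
    ∀ b : OrthonormalBasis (Fin 3) ℝ E3,
    ∫ x in cube, (∑ i, v i x ^ 2) ^ 3 ≤ C * ∏ k, (Dd v (b k) + Nn v) := by
  obtain ⟨χ, M, hM1, hχd, hχc, hχ1, hχ01, hχs, hχM⟩ := bump
  have hM0 : 0 < M := by linarith
  refine ⟨64 ^ 2 * (54 * M ^ 2) ^ 3, by positivity, fun v hv b => ?_⟩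
  set U : E3 → E3 := fun y =>
    WithLp.toLp 2 (fun i => χ (WithLp.ofLp y) * v i (WithLp.ofLp y)) with hU
  have hof : ContDiff ℝ 1 (fun y : E3 => (WithLp.ofLp y : V)) :=
    (PiLp.continuousLinearEquiv 2 ℝ (fun _ : Fin 3 => ℝ)).contDiff
  have hUd : ContDiff ℝ 1 U := by
    rw [contDiff_euclidean]
    intro i
    exact (hχd.comp hof).mul (((hv i).smooth.of_le (by norm_cast)).comp hof)
  have hUc : HasCompactSupport U := by
    have h1 : HasCompactSupport (fun y : E3 => χ (WithLp.ofLp y)) :=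
      hχc.comp_homeomorph (PiLp.homeomorph 2 (fun _ : Fin 3 => ℝ))
    refine h1.mono fun y hy => ?_
    rw [Function.mem_support] at hy ⊢
    intro h0
    apply hy
    simp only [hU, h0, zero_mul]
    rfl
  have key := Q176.AN.aniso hUd hUc b
  -- lower bound of the left side
  set I6 : ℝ := ∫ x in cube, (∑ i, v i x ^ 2) ^ 3 with hI6
  have hvc : Continuous fun x => (∑ i, v i x ^ 2) ^ 3 := by
    have := fun i => (hv i).cont
    fun_prop
  have hI60 : 0 ≤ I6 := integral_nonneg fun x => by positivity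
  have hL : ENNReal.ofReal I6 ≤ ∫⁻ p, ‖U p‖ₑ ^ 6 := by
    have e1 : ∫⁻ p, ‖U p‖ₑ ^ 6 = ∫⁻ x : V, ‖U (WithLp.toLp 2 x)‖ₑ ^ 6 := by
      refine ((PiLp.volume_preserving_toLp (Fin 3)).lintegral_comp ?_).symm
      exact hUd.continuous.measurable.enorm.pow_const 6
    rw [e1, hI6, ofReal_integral_eq_lintegral_ofReal (integrableOn_cube hvc)
      (Eventually.of_forall fun x => by positivity)]
    refine (setLIntegral_mono' measurableSet_cube fun x hx => ?_).trans
      (setLIntegral_le_lintegral cube _)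
    have e2 : U (WithLp.toLp 2 x) = WithLp.toLp 2 (fun i => v i x) := by
      simp only [hU, hχ1 x hx, one_mul]
    rw [e2, show (6 : ℕ) = 2 * 3 by norm_num, pow_mul, enorm_sq_E3,
      ← ENNReal.ofReal_pow (by positivity)]
  -- upper bound of the right side
  have hR : ∀ e : E3, ‖e‖ = 1 → ∫⁻ p, ‖fderiv ℝ U p e‖ₑ ^ 2
      ≤ ENNReal.ofReal (54 * M ^ 2 * (Dd v e + Nn v)) := by
    intro e he
    set Ψ : V → ℝ := fun x => ∑ i, ((∑ j, e j * pd j (v i) x) ^ 2 + v i x ^ 2) with hΨ
    have hpc : ∀ i j, Continuous (pd j (v i)) := fun i j => ((hv i).pd j).cont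
    have hΨc : Continuous Ψ := by
      have := fun i => (hv i).cont
      fun_prop
    have hΨp : Per Ψ := by
      intro i x
      simp only [hΨ, ((hv _).pd _).per i x, (hv _).per i x]
    have hΨ0 : ∀ x, 0 ≤ Ψ x := fun x => by positivity
    have e1 : ∫⁻ p, ‖fderiv ℝ U p e‖ₑ ^ 2 = ∫⁻ x : V, ‖fderiv ℝ U (WithLp.toLp 2 x) e‖ₑ ^ 2 := by
      refine ((PiLp.volume_preserving_toLp (Fin 3)).lintegral_comp ?_).symm
      exact ((hUd.continuous_fderiv one_ne_zero).clm_apply
        continuous_const).measurable.enorm.pow_const 2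
    rw [e1]
    have h3 : ∀ x : V, ‖fderiv ℝ U (WithLp.toLp 2 x) e‖ₑ ^ 2
        ≤ box.indicator (fun x => ENNReal.ofReal (2 * M ^ 2 * Ψ x)) x := by
      intro x
      have hd : ∀ i, HasFDerivAt (fun y : E3 => χ (WithLp.ofLp y) * v i (WithLp.ofLp y))
          ((χ x • fderiv ℝ (v i) x + v i x • fderiv ℝ χ x).comp
            (PiLp.continuousLinearEquiv 2 ℝ (fun _ : Fin 3 => ℝ)).toContinuousLinearMap)
          (WithLp.toLp 2 x) := by
        intro i
        have a1 : HasFDerivAt (fun z : V => χ z * v i z)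
            (χ x • fderiv ℝ (v i) x + v i x • fderiv ℝ χ x) x :=
          ((hχd.differentiable one_ne_zero x).hasFDerivAt).mul ((hv i).diff x).hasFDerivAt
        exact HasFDerivAt.comp (WithLp.toLp 2 x) (g := fun z : V => χ z * v i z)
          (f := fun y : E3 => (WithLp.ofLp y : V)) a1
          (PiLp.continuousLinearEquiv 2 ℝ (fun _ : Fin 3 => ℝ)).hasFDerivAt
      have hval : ∀ i, fderiv ℝ U (WithLp.toLp 2 x) e i
          = χ x * (∑ j, e j * pd j (v i) x) + v i x * fderiv ℝ χ x (WithLp.ofLp e) := by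
        intro i
        have a2 : HasFDerivAt (fun y : E3 => U y i)
            ((EuclideanSpace.proj i).comp (fderiv ℝ U (WithLp.toLp 2 x))) (WithLp.toLp 2 x) :=
          (EuclideanSpace.proj (𝕜 := ℝ) i).hasFDerivAt.comp _
            (hUd.differentiable one_ne_zero _).hasFDerivAt
        have a3 := a2.unique (hd i)
        have a4 := congrArg (fun L : E3 →L[ℝ] ℝ => L e) a3
        simp only [ContinuousLinearMap.comp_apply] at a4
        have a5 : fderiv ℝ U (WithLp.toLp 2 x) e i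
            = (χ x • fderiv ℝ (v i) x + v i x • fderiv ℝ χ x) (WithLp.ofLp e) := a4
        rw [a5]
        simp only [_root_.add_apply, _root_.smul_apply, smul_eq_mul]
        rw [fderiv_eq_sum]
      by_cases hx : x ∈ box
      · rw [indicator_of_mem hx, enorm_sq_E3]
        apply ENNReal.ofReal_le_ofReal
        rw [hΨ, Finset.mul_sum]
        refine Finset.sum_le_sum fun i _ => ?_
        rw [hval]
        have b1 : |fderiv ℝ χ x (WithLp.ofLp e)| ≤ M := by
          have c1 := (fderiv ℝ χ x).le_opNorm (WithLp.ofLp e)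
          have c2 := norm_ofLp_le e
          rw [he] at c2
          calc |fderiv ℝ χ x (WithLp.ofLp e)| ≤ ‖fderiv ℝ χ x‖ * ‖(WithLp.ofLp e : V)‖ := c1
            _ ≤ M * 1 := mul_le_mul (hχM x) c2 (norm_nonneg _) hM0.le
            _ = M := mul_one _
        have b2 : (fderiv ℝ χ x (WithLp.ofLp e)) ^ 2 ≤ M ^ 2 := by
          rw [← sq_abs]; exact pow_le_pow_left₀ (abs_nonneg _) b1 2
        have b3 : χ x ^ 2 ≤ M ^ 2 :=
          pow_le_pow_left₀ (hχ01 x).1 ((hχ01 x).2.trans hM1) 2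
        set s : ℝ := ∑ j, e j * pd j (v i) x with hs
        set q : ℝ := fderiv ℝ χ x (WithLp.ofLp e) with hq
        have b4 : (χ x * s + v i x * q) ^ 2 ≤ 2 * (χ x ^ 2 * s ^ 2) + 2 * (v i x ^ 2 * q ^ 2) := by
          nlinarith [sq_nonneg (χ x * s - v i x * q)]
        have b5 : χ x ^ 2 * s ^ 2 ≤ M ^ 2 * s ^ 2 :=
          mul_le_mul_of_nonneg_right b3 (sq_nonneg _)
        have b6 : v i x ^ 2 * q ^ 2 ≤ v i x ^ 2 * M ^ 2 :=
          mul_le_mul_of_nonneg_left b2 (sq_nonneg _)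
        nlinarith
      · rw [indicator_of_notMem hx]
        have h4 : U =ᶠ[𝓝 (WithLp.toLp 2 x)] 0 := by
          have h5 : Tendsto (fun y : E3 => (WithLp.ofLp y : V)) (𝓝 (WithLp.toLp 2 x)) (𝓝 x) :=
            hof.continuous.tendsto _
          filter_upwards [h5.eventually (hχs x hx)] with y hy
          have hy' : χ (WithLp.ofLp y) = 0 := hy
          simp only [hU, hy', zero_mul]
          rfl
        rw [h4.fderiv_eq]
        simp
    calc ∫⁻ x : V, ‖fderiv ℝ U (WithLp.toLp 2 x) e‖ₑ ^ 2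
        ≤ ∫⁻ x, box.indicator (fun x => ENNReal.ofReal (2 * M ^ 2 * Ψ x)) x :=
          lintegral_mono h3
      _ = ∫⁻ x in box, ENNReal.ofReal (2 * M ^ 2 * Ψ x) := lintegral_indicator measurableSet_Icc _
      _ ≤ 27 * ∫⁻ x in cube, ENNReal.ofReal (2 * M ^ 2 * Ψ x) := by
          refine lintegral_box_le ?_ ?_
          · exact (continuous_const.mul hΨc).measurable.ennreal_ofReal
          · intro i x
            simp only [hΨp i x]
      _ = 27 * ENNReal.ofReal (∫ x in cube, 2 * M ^ 2 * Ψ x) := by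
          rw [ofReal_integral_eq_lintegral_ofReal (f := fun x => 2 * M ^ 2 * Ψ x)
            (integrableOn_cube (continuous_const.mul hΨc))
            (Eventually.of_forall fun x => mul_nonneg (by positivity) (hΨ0 x))]
      _ = ENNReal.ofReal (54 * M ^ 2 * (Dd v e + Nn v)) := by
          rw [show (27 : ℝ≥0∞) = ENNReal.ofReal 27 by simp,
            ← ENNReal.ofReal_mul (by norm_num), integral_const_mul]
          congr 1
          have h6 : ∫ x in cube, Ψ x = Dd v e + Nn v := by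
            have i1 : ∀ i, IntegrableOn (fun x => (∑ j, e j * pd j (v i) x) ^ 2) cube := fun i =>
              integrableOn_cube (by fun_prop)
            have i2 : ∀ i, IntegrableOn (fun x => v i x ^ 2) cube := fun i =>
              integrableOn_cube ((hv i).cont.pow 2)
            simp only [hΨ]
            have i3 : ∀ i ∈ (Finset.univ : Finset (Fin 3)),
                Integrable (fun x => (∑ j, e j * pd j (v i) x) ^ 2 + v i x ^ 2)
                  (volume.restrict cube) := fun i _ => (i1 i).add (i2 i)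
            rw [integral_finsetSum _ i3, Dd, Nn, ← Finset.sum_add_distrib]
            exact Finset.sum_congr rfl fun i _ => integral_add (i1 i) (i2 i)
          rw [h6]
          ring
  have hD0 : ∀ e, 0 ≤ Dd v e + Nn v := fun e => by
    unfold Dd Nn
    exact add_nonneg (Finset.sum_nonneg fun i _ => integral_nonneg fun x => sq_nonneg _)
      (Finset.sum_nonneg fun i _ => integral_nonneg fun x => sq_nonneg _)
  have h7 : (ENNReal.ofReal I6) ^ (1 / 2 : ℝ)
      ≤ ENNReal.ofReal (64 * ∏ k, Real.sqrt (54 * M ^ 2 * (Dd v (b k) + Nn v))) := by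
    calc (ENNReal.ofReal I6) ^ (1 / 2 : ℝ) ≤ (∫⁻ p, ‖U p‖ₑ ^ 6) ^ (1 / 2 : ℝ) := by gcongr
      _ ≤ 64 * ∏ i, (∫⁻ p, ‖fderiv ℝ U p (b i)‖ₑ ^ 2) ^ (1 / 2 : ℝ) := key
      _ ≤ 64 * ∏ i, (ENNReal.ofReal (54 * M ^ 2 * (Dd v (b i) + Nn v))) ^ (1 / 2 : ℝ) := by
          gcongr with i
          exact hR (b i) (b.orthonormal.1 i)
      _ = 64 * ∏ i, ENNReal.ofReal (Real.sqrt (54 * M ^ 2 * (Dd v (b i) + Nn v))) := by
          congr 1
          refine Finset.prod_congr rfl fun i _ => ?_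
          rw [ENNReal.ofReal_rpow_of_nonneg (mul_nonneg (by positivity) (hD0 _)) (by norm_num),
            ← Real.sqrt_eq_rpow]
      _ = _ := by
          rw [← ENNReal.ofReal_prod_of_nonneg (fun _ _ => Real.sqrt_nonneg _),
            ENNReal.ofReal_mul (by norm_num)]
          simp
  rw [ENNReal.ofReal_rpow_of_nonneg hI60 (by norm_num), ← Real.sqrt_eq_rpow] at h7
  have h8 : Real.sqrt I6 ≤ 64 * ∏ k, Real.sqrt (54 * M ^ 2 * (Dd v (b k) + Nn v)) := by
    have := (ENNReal.ofReal_le_ofReal_iff (by positivity)).1 h7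
    exact this
  have h9 : I6 ≤ (64 * ∏ k, Real.sqrt (54 * M ^ 2 * (Dd v (b k) + Nn v))) ^ 2 := by
    rw [← Real.sqrt_le_left (by positivity)]
    exact h8
  refine h9.trans (le_of_eq ?_)
  rw [mul_pow, ← Finset.prod_pow]
  have h10 : ∀ k, Real.sqrt (54 * M ^ 2 * (Dd v (b k) + Nn v)) ^ 2
      = 54 * M ^ 2 * (Dd v (b k) + Nn v) := fun k =>
    Real.sq_sqrt (mul_nonneg (by positivity) (hD0 _))
  simp only [h10]
  rw [Finset.prod_mul_distrib, Finset.prod_const, Finset.card_univ, Fintype.card_fin]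
  ring

end Q176.AD
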