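import Pool.Agent.Q176.AD.A1

/-!
The bound `2 |cub v| ≤ ν ∫ |Δv|² + C ν⁻³ ∏ₖ (∫ |∂_{b k} v|² + ∫ |v|²)`.
-/

set_option autoImplicit false

open MeasureTheory Set Filter Topology
open scoped InnerProductSpace ENNReal ContDiff NNReal

namespace Q176.AD

open H459R3.NS

theorem young3 {x y z : ℝ} (hx : 0 ≤ x) (hy : 0 ≤ y) (hz : 0 ≤ z) :
    x * y * z ≤ 1 / 6 * x ^ 6 + 1 / 3 * y ^ 3 + 1 / 2 * z ^ 2 := by
  have h := Real.geom_mean_le_arith_mean3_weighted (w₁ := 1 / 6) (w₂ := 1 / 3) (w₃ := 1 / 2)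
    (p₁ := x ^ 6) (p₂ := y ^ 3) (p₃ := z ^ 2) (by norm_num) (by norm_num) (by norm_num)
    (by positivity) (by positivity) (by positivity) (by norm_num)
  have e1 : (x ^ 6) ^ (1 / 6 : ℝ) = x := by
    rw [← Real.rpow_natCast, ← Real.rpow_mul hx]; norm_num
  have e2 : (y ^ 3) ^ (1 / 3 : ℝ) = y := by
    rw [← Real.rpow_natCast, ← Real.rpow_mul hy]; norm_num
  have e3 : (z ^ 2) ^ (1 / 2 : ℝ) = z := by
    rw [← Real.rpow_natCast, ← Real.rpow_mul hz]; norm_num
  rwa [e1, e2, e3] at h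

theorem holder3_pos {a b c : V → ℝ} (ha : Continuous a) (hb : Continuous b) (hc : Continuous c)
    {A B C : ℝ} (hA : 0 < A) (hB : 0 < B) (hC : 0 < C)
    (h1 : ∫ x in cube, |a x| ^ 6 ≤ A ^ 6) (h2 : ∫ x in cube, |b x| ^ 3 ≤ B ^ 3)
    (h3 : ∫ x in cube, |c x| ^ 2 ≤ C ^ 2) :
    ∫ x in cube, |a x| * |b x| * |c x| ≤ A * B * C := by
  have hp : ∀ x, |a x| * |b x| * |c x| ≤ A * B * C * (1 / 6 * (|a x| ^ 6 / A ^ 6)
      + 1 / 3 * (|b x| ^ 3 / B ^ 3) + 1 / 2 * (|c x| ^ 2 / C ^ 2)) := by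
    intro x
    have h := young3 (x := |a x| / A) (y := |b x| / B) (z := |c x| / C) (by positivity)
      (by positivity) (by positivity)
    simp only [div_pow] at h
    have e : |a x| * |b x| * |c x| = A * B * C * (|a x| / A * (|b x| / B) * (|c x| / C)) := by
      field_simp
    rw [e]
    exact mul_le_mul_of_nonneg_left h (by positivity)
  have i1 : IntegrableOn (fun x => |a x| ^ 6) cube := integrableOn_cube (ha.abs.pow 6)
  have i2 : IntegrableOn (fun x => |b x| ^ 3) cube := integrableOn_cube (hb.abs.pow 3)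
  have i3 : IntegrableOn (fun x => |c x| ^ 2) cube := integrableOn_cube (hc.abs.pow 2)
  have j1 : IntegrableOn (fun x => 1 / 6 * (|a x| ^ 6 / A ^ 6)) cube :=
    (i1.div_const _).const_mul _
  have j2 : IntegrableOn (fun x => 1 / 3 * (|b x| ^ 3 / B ^ 3)) cube :=
    (i2.div_const _).const_mul _
  have j3 : IntegrableOn (fun x => 1 / 2 * (|c x| ^ 2 / C ^ 2)) cube :=
    (i3.div_const _).const_mul _
  have j12 : IntegrableOn (fun x => 1 / 6 * (|a x| ^ 6 / A ^ 6) + 1 / 3 * (|b x| ^ 3 / B ^ 3))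
    cube := j1.add j2
  calc ∫ x in cube, |a x| * |b x| * |c x|
      ≤ ∫ x in cube, A * B * C * (1 / 6 * (|a x| ^ 6 / A ^ 6)
      + 1 / 3 * (|b x| ^ 3 / B ^ 3) + 1 / 2 * (|c x| ^ 2 / C ^ 2)) := by
        refine integral_mono (integrableOn_cube ((ha.abs.mul hb.abs).mul hc.abs)) ?_ hp
        exact (j12.add j3).const_mul _
    _ = A * B * C * (1 / 6 * ((∫ x in cube, |a x| ^ 6) / A ^ 6)
      + 1 / 3 * ((∫ x in cube, |b x| ^ 3) / B ^ 3) + 1 / 2 * ((∫ x in cube, |c x| ^ 2) / C ^ 2)) := by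
        rw [integral_const_mul, integral_add j12 j3, integral_add j1 j2, integral_const_mul,
          integral_const_mul, integral_const_mul, integral_div, integral_div, integral_div]
    _ ≤ A * B * C * (1 / 6 * 1 + 1 / 3 * 1 + 1 / 2 * 1) := by
        have k1 : (∫ x in cube, |a x| ^ 6) / A ^ 6 ≤ 1 := by
          rw [div_le_one (by positivity)]; exact h1
        have k2 : (∫ x in cube, |b x| ^ 3) / B ^ 3 ≤ 1 := by
          rw [div_le_one (by positivity)]; exact h2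
        have k3 : (∫ x in cube, |c x| ^ 2) / C ^ 2 ≤ 1 := by
          rw [div_le_one (by positivity)]; exact h3
        gcongr
    _ = A * B * C := by ring

theorem holder3 {a b c : V → ℝ} (ha : Continuous a) (hb : Continuous b) (hc : Continuous c)
    {A B C : ℝ} (hA : 0 ≤ A) (hB : 0 ≤ B) (hC : 0 ≤ C)
    (h1 : ∫ x in cube, |a x| ^ 6 ≤ A ^ 6) (h2 : ∫ x in cube, |b x| ^ 3 ≤ B ^ 3)
    (h3 : ∫ x in cube, |c x| ^ 2 ≤ C ^ 2) :
    ∫ x in cube, |a x| * |b x| * |c x| ≤ A * B * C := by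
  have h : ∀ ε : ℝ, 0 < ε →
      ∫ x in cube, |a x| * |b x| * |c x| ≤ (A + ε) * (B + ε) * (C + ε) := by
    intro ε hε
    refine holder3_pos ha hb hc (by linarith) (by linarith) (by linarith)
      (h1.trans ?_) (h2.trans ?_) (h3.trans ?_)
    · gcongr; linarith
    · gcongr; linarith
    · gcongr; linarith
  have hlim : Tendsto (fun ε : ℝ => (A + ε) * (B + ε) * (C + ε)) (𝓝[>] 0)
      (𝓝 ((A + 0) * (B + 0) * (C + 0))) := by
    have : Continuous fun ε : ℝ => (A + ε) * (B + ε) * (C + ε) := by fun_prop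
    exact (this.tendsto 0).mono_left nhdsWithin_le_nhds
  simp only [add_zero] at hlim
  refine ge_of_tendsto hlim ?_
  filter_upwards [self_mem_nhdsWithin] with ε hε
  exact h ε hε

theorem hasDerivAt_mul_abs (s : ℝ) : HasDerivAt (fun r : ℝ => r * |r|) (2 * |s|) s := by
  rcases lt_trichotomy s 0 with h | h | h
  · have h1 : HasDerivAt (fun r : ℝ => r * (-r)) (1 * (-s) + s * (-1)) s :=
      (hasDerivAt_id s).mul ((hasDerivAt_id s).neg)
    have h2 : (fun r : ℝ => r * |r|) =ᶠ[𝓝 s] fun r => r * (-r) := by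
      filter_upwards [Iio_mem_nhds h] with r hr
      rw [abs_of_neg hr]
    refine (h1.congr_of_eventuallyEq h2).congr_deriv ?_
    rw [abs_of_neg h]; ring
  · subst h
    rw [hasDerivAt_iff_tendsto_slope]
    have h1 : ∀ r ∈ ({(0 : ℝ)}ᶜ : Set ℝ), slope (fun r : ℝ => r * |r|) 0 r = |r| := by
      intro r hr
      have hr' : r ≠ 0 := hr
      rw [slope_def_field]
      simp only [abs_zero, mul_zero, sub_zero]
      field_simp
    have h2 : Tendsto (fun r : ℝ => |r|) (𝓝[≠] 0) (𝓝 (2 * |(0 : ℝ)|)) := by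
      have : Tendsto (fun r : ℝ => |r|) (𝓝[≠] 0) (𝓝 |(0 : ℝ)|) :=
        (continuous_abs.tendsto 0).mono_left nhdsWithin_le_nhds
      simpa using this
    refine h2.congr' ?_
    filter_upwards [self_mem_nhdsWithin] with r hr
    exact (h1 r hr).symm
  · have h1 : HasDerivAt (fun r : ℝ => r * r) (1 * s + s * 1) s :=
      (hasDerivAt_id s).mul (hasDerivAt_id s)
    have h2 : (fun r : ℝ => r * |r|) =ᶠ[𝓝 s] fun r => r * r := by
      filter_upwards [Ioi_mem_nhds h] with r hr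
      rw [abs_of_pos hr]
    refine (h1.congr_of_eventuallyEq h2).congr_deriv ?_
    rw [abs_of_pos h]; ring

theorem contDiff_mul_abs : ContDiff ℝ 1 (fun r : ℝ => r * |r|) := by
  rw [contDiff_one_iff_deriv]
  refine ⟨fun s => (hasDerivAt_mul_abs s).differentiableAt, ?_⟩
  have : deriv (fun r : ℝ => r * |r|) = fun s => 2 * |s| :=
    funext fun s => (hasDerivAt_mul_abs s).deriv
  rw [this]
  fun_prop

/-- `‖∂ⱼf‖₃² ≤ 2 ‖f‖₆ ‖∂ⱼ∂ⱼf‖₂`. -/
theorem gn {f : V → ℝ} (hf : SP f) (j : Fin 3) {A B H : ℝ} (hA : 0 ≤ A) (hB : 0 ≤ B) (hH : 0 ≤ H)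
    (h1 : ∫ x in cube, |f x| ^ 6 ≤ A ^ 6) (h2 : ∫ x in cube, |pd j f x| ^ 3 = B ^ 3)
    (h3 : ∫ x in cube, |pd j (pd j f) x| ^ 2 ≤ H ^ 2) : B ^ 2 ≤ 2 * (A * H) := by
  set g : V → ℝ := pd j f with hg
  have hgs : SP g := hf.pd j
  have hφ : ContDiff ℝ 1 (fun x => g x * |g x|) :=
    contDiff_mul_abs.comp (hgs.smooth.of_le (by norm_cast))
  have hF : ContDiff ℝ 1 (fun x => f x * (g x * |g x|)) :=
    (hf.smooth.of_le (by norm_cast)).mul hφ
  have hFp : Per (fun x => f x * (g x * |g x|)) := by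
    intro i x
    simp only [hf.per i x, hgs.per i x]
  have h0 := integral_pd hF hFp j
  have hpd : ∀ x, pd j (fun x => f x * (g x * |g x|)) x
      = |g x| ^ 3 + f x * (2 * |g x| * pd j g x) := by
    intro x
    have d1 : HasFDerivAt f (fderiv ℝ f x) x := (hf.diff x).hasFDerivAt
    have d2 : HasFDerivAt (fun x => g x * |g x|) ((2 * |g x|) • fderiv ℝ g x) x :=
      (hasDerivAt_mul_abs (g x)).comp_hasFDerivAt x (hgs.diff x).hasFDerivAt
    have d3 : HasFDerivAt (fun x => f x * (g x * |g x|))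
        (f x • ((2 * |g x|) • fderiv ℝ g x) + (g x * |g x|) • fderiv ℝ f x) x := d1.mul d2
    show fderiv ℝ (fun x => f x * (g x * |g x|)) x (Pi.single j 1)
      = |g x| ^ 3 + f x * (2 * |g x| * pd j g x)
    rw [d3.fderiv]
    simp only [_root_.add_apply, _root_.smul_apply, smul_eq_mul]
    have e1 : fderiv ℝ f x (Pi.single j 1) = g x := rfl
    have e3 : fderiv ℝ g x (Pi.single j 1) = pd j g x := rfl
    rw [e1, e3]
    have e2 : |g x| ^ 3 = g x * |g x| * g x := by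
      rw [pow_succ, sq_abs]
      ring
    rw [e2]
    ring
  simp_rw [hpd] at h0
  have hgc : Continuous g := hgs.cont
  have hfc : Continuous f := hf.cont
  have hggc : Continuous (pd j g) := (hgs.pd j).cont
  have i1 : IntegrableOn (fun x => |g x| ^ 3) cube := integrableOn_cube (hgc.abs.pow 3)
  have i2 : IntegrableOn (fun x => f x * (2 * |g x| * pd j g x)) cube :=
    integrableOn_cube (by fun_prop)
  rw [integral_add i1 i2, h2] at h0
  have hle : -∫ x in cube, f x * (2 * |g x| * pd j g x)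
      ≤ 2 * ∫ x in cube, |f x| * |g x| * |pd j g x| := by
    rw [← integral_neg, ← integral_const_mul]
    refine integral_mono i2.neg (integrableOn_cube (by fun_prop)) fun x => ?_
    have : |f x * (2 * |g x| * pd j g x)| = 2 * (|f x| * |g x| * |pd j g x|) := by
      rw [abs_mul, abs_mul, abs_mul, abs_abs]
      norm_num
      ring
    show -(f x * (2 * |g x| * pd j g x)) ≤ 2 * (|f x| * |g x| * |pd j g x|)
    rw [← this]
    exact neg_le_abs _
  have hh := holder3 hfc hgc hggc hA hB hH h1 h2.le h3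
  have h5 : B ^ 3 ≤ 2 * (A * B * H) := by linarith
  rcases hB.eq_or_lt with hB0 | hB0
  · rw [← hB0]
    have := mul_nonneg hA hH
    nlinarith
  · have h6 : B * B ^ 2 ≤ B * (2 * (A * H)) := by
      calc B * B ^ 2 = B ^ 3 := by ring
        _ ≤ 2 * (A * B * H) := h5
        _ = B * (2 * (A * H)) := by ring
    exact le_of_mul_le_mul_left h6 hB0

theorem quartic {z s : ℝ} (hz : 0 ≤ z) (hs : 0 ≤ s) : s * z ^ 3 ≤ z ^ 4 + 27 / 256 * s ^ 4 := by
  have h : 0 ≤ (z - 3 / 4 * s) ^ 2 * (z ^ 2 + 1 / 2 * s * z + 3 / 16 * s ^ 2) := by positivity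
  nlinarith

/-- The enstrophy production in terms of `∫ |v|⁶` and `∫ |Δv|²`. -/
theorem cub_le {v : Fin 3 → V → ℝ} (hv : ∀ i, SP (v i)) (hdiv : ∀ x, ∑ i, pd i (v i) x = 0)
    {p x : ℝ} (hp : 0 ≤ p) (hx : 0 ≤ x) (h6 : ∫ y in cube, (∑ i, v i y ^ 2) ^ 3 ≤ p ^ 12)
    (h2 : ∑ i, ∫ y in cube, lap (v i) y ^ 2 ≤ x ^ 4) : |cub v| ≤ 18 * (p ^ 3 * x ^ 3) := by
  have hvc : ∀ i, Continuous (v i) := fun i => (hv i).cont
  have hlc : ∀ i, Continuous (lap (v i)) := fun i => (hv i).lap.cont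
  have a6 : ∀ i, ∫ y in cube, |v i y| ^ 6 ≤ (p ^ 2) ^ 6 := by
    intro i
    rw [← pow_mul]
    refine le_trans (integral_mono (integrableOn_cube ((hvc i).abs.pow 6))
      (integrableOn_cube (by fun_prop)) fun y => ?_) h6
    have e : |v i y| ^ 6 = (v i y ^ 2) ^ 3 := by
      rw [← sq_abs (v i y)]; ring
    show |v i y| ^ 6 ≤ (∑ i, v i y ^ 2) ^ 3
    rw [e]
    refine pow_le_pow_left₀ (sq_nonneg _) ?_ 3
    exact Finset.single_le_sum (f := fun i => v i y ^ 2) (fun _ _ => sq_nonneg _)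
      (Finset.mem_univ i)
  have aL : ∀ i, ∫ y in cube, |lap (v i) y| ^ 2 ≤ (x ^ 2) ^ 2 := by
    intro i
    rw [← pow_mul]
    simp only [sq_abs]
    refine le_trans ?_ h2
    exact Finset.single_le_sum (f := fun i => ∫ y in cube, lap (v i) y ^ 2)
      (fun _ _ => integral_nonneg fun _ => sq_nonneg _) (Finset.mem_univ i)
  have aH : ∀ i j, ∫ y in cube, |pd j (pd j (v i)) y| ^ 2 ≤ (x ^ 2) ^ 2 := by
    intro i j
    have h1 := grd_pd_le_lap (hv i) j
    have h3 : ∫ y in cube, |pd j (pd j (v i)) y| ^ 2 ≤ grd (pd j (v i)) ^ 2 := by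
      rw [grd_sq]
      simp only [sq_abs]
      exact Finset.single_le_sum (f := fun l => ∫ y in cube, pd l (pd j (v i)) y ^ 2)
        (fun _ _ => integral_nonneg fun _ => sq_nonneg _) (Finset.mem_univ j)
    have h4 : grd (pd j (v i)) ^ 2 ≤ nrm (lap (v i)) ^ 2 :=
      pow_le_pow_left₀ (grd_nonneg _) h1 2
    rw [nrm_sq] at h4
    have h5 := aL i
    simp only [sq_abs] at h5
    linarith
  have hterm : ∀ i j, |∫ y in cube, lap (v i) y * (v j y * pd j (v i) y)| ≤ 2 * (p ^ 3 * x ^ 3) := by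
    intro i j
    set B : ℝ := (∫ y in cube, |pd j (v i) y| ^ 3) ^ (1 / 3 : ℝ) with hB
    have hB0 : 0 ≤ B := Real.rpow_nonneg (integral_nonneg fun _ => by positivity) _
    have hB3 : ∫ y in cube, |pd j (v i) y| ^ 3 = B ^ 3 := by
      rw [hB, ← Real.rpow_natCast, ← Real.rpow_mul (integral_nonneg fun _ => by positivity)]
      norm_num
    have h1 := gn (hv i) j (by positivity) hB0 (by positivity) (a6 i) hB3 (aH i j)
    have hpc : Continuous (pd j (v i)) := ((hv i).pd j).cont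
    have h3 := holder3 (hvc j) hpc (hlc i) (by positivity) hB0 (by positivity) (a6 j) hB3.le (aL i)
    have h4 : B ≤ 2 * (p * x) := by
      have : B ^ 2 ≤ (2 * (p * x)) ^ 2 := by
        have e : 2 * (p ^ 2 * x ^ 2) ≤ (2 * (p * x)) ^ 2 := by nlinarith [sq_nonneg (p * x)]
        linarith
      exact le_of_sq_le_sq this (by positivity)
    calc |∫ y in cube, lap (v i) y * (v j y * pd j (v i) y)|
        ≤ ∫ y in cube, |lap (v i) y * (v j y * pd j (v i) y)| := abs_integral_le_integral_abs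
      _ = ∫ y in cube, |v j y| * |pd j (v i) y| * |lap (v i) y| := by
          congr 1
          funext y
          rw [abs_mul, abs_mul]; ring
      _ ≤ p ^ 2 * B * x ^ 2 := h3
      _ ≤ p ^ 2 * (2 * (p * x)) * x ^ 2 := by gcongr
      _ = 2 * (p ^ 3 * x ^ 3) := by ring
  have hc := int_lap_conv hv hdiv
  have e1 : ∀ i, ∫ y in cube, lap (v i) y * conv v i y
      = ∑ j, ∫ y in cube, lap (v i) y * (v j y * pd j (v i) y) := by
    intro i
    rw [← integral_finsetSum _ fun j _ => ((hv i).lap.mul ((hv j).mul ((hv i).pd j))).int]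
    congr 1
    funext y
    unfold conv
    rw [Finset.mul_sum]
  simp_rw [e1] at hc
  have h9 : |cub v| = |∑ i, ∑ j, ∫ y in cube, lap (v i) y * (v j y * pd j (v i) y)| := by
    rw [hc, abs_neg]
  rw [h9]
  calc |∑ i, ∑ j, ∫ y in cube, lap (v i) y * (v j y * pd j (v i) y)|
      ≤ ∑ i, |∑ j, ∫ y in cube, lap (v i) y * (v j y * pd j (v i) y)| :=
        Finset.abs_sum_le_sum_abs _ _
    _ ≤ ∑ _i : Fin 3, ∑ _j : Fin 3, 2 * (p ^ 3 * x ^ 3) :=
        Finset.sum_le_sum fun i _ => (Finset.abs_sum_le_sum_abs _ _).trans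
          (Finset.sum_le_sum fun j _ => hterm i j)
    _ = 18 * (p ^ 3 * x ^ 3) := by
        simp only [Finset.sum_const, Finset.card_univ, Fintype.card_fin, nsmul_eq_mul]
        push_cast
        ring

end Q176.AD
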