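import Pool.Agent.H459R3.NS.Final

/-!
The directional energies and the enstrophy matrix of a periodic vector field.
-/

set_option autoImplicit false

open MeasureTheory Set

namespace Q176.AD

open H459R3.NS

/-- `∫ |∂_e v|²` over the period cell, where `∂_e = ∑ⱼ eⱼ ∂ⱼ`. -/
noncomputable def dirEnergy (v : V → V) (e : V) : ℝ :=
  ∑ i, ∫ x in cube, (∑ j, e j * pd j (fun y => v y i) x) ^ 2

/-- `∫ |v - v̄|²` over the period cell, where `v̄` is the mean of `v`. -/
noncomputable def fluc (v : V → V) : ℝ :=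
  ∑ i, ∫ x in cube, (v x i - ∫ y in cube, v y i) ^ 2

/-- The enstrophy matrix: its entries are `∫ ∂ⱼv · ∂ₖv` over the period cell. -/
noncomputable def enstrophyMatrix (v : V → V) : Matrix (Fin 3) (Fin 3) ℝ := fun j k =>
  ∑ i, ∫ x in cube, pd j (fun y => v y i) x * pd k (fun y => v y i) x

end Q176.AD
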