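import Pool.Agent.Q176.AD.A2
import Pool.Agent.Q176.AD.Def

/-!
The enstrophy production is bounded by the determinant of the enstrophy matrix.
-/

set_option autoImplicit false

open MeasureTheory Set Filter Topology
open scoped InnerProductSpace ENNReal ContDiff NNReal

namespace Q176.AD

open H459R3.NS

theorem sp_const (c : ℝ) : SP (fun _ : V => c) := ⟨contDiff_const, fun _ _ => rfl⟩

theorem sp_sub_const {f : V → ℝ} (hf : SP f) (c : ℝ) : SP (fun x => f x - c) :=
  hf.sub (sp_const c)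

theorem pd_sub_const (f : V → ℝ) (c : ℝ) (j : Fin 3) : pd j (fun x => f x - c) = pd j f := by
  funext x
  unfold pd
  rw [fderiv_sub_const]

theorem lap_sub_const (f : V → ℝ) (c : ℝ) : lap (fun x => f x - c) = lap f := by
  funext x
  unfold lap
  simp only [pd_sub_const]

/-- `∫ |v - v̄|²` in coordinates -/
noncomputable def Nm (v : Fin 3 → V → ℝ) : ℝ := ∑ i, ∫ x in cube, (v i x - ∫ y in cube, v i y) ^ 2

theorem Nm_nonneg (v : Fin 3 → V → ℝ) : 0 ≤ Nm v :=
  Finset.sum_nonneg fun _ _ => integral_nonneg fun _ => sq_nonneg _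

theorem Dd_nonneg (v : Fin 3 → V → ℝ) (e : E3) : 0 ≤ Dd v e :=
  Finset.sum_nonneg fun _ _ => integral_nonneg fun _ => sq_nonneg _

theorem cub_bound : ∃ C : ℝ, 0 < C ∧ ∀ (v : Fin 3 → V → ℝ), (∀ i, SP (v i)) →
    (∀ x, ∑ i, pd i (v i) x = 0) → ∀ (b : OrthonormalBasis (Fin 3) ℝ E3) (ν : ℝ), 0 < ν →
    2 * |cub v| ≤ ν * (∑ i, ∫ x in cube, lap (v i) x ^ 2)
      + C / ν ^ 3 * ∏ k, (Dd v (b k) + Nm v) := by
  obtain ⟨C0, hC0, h0⟩ := six_aniso
  refine ⟨27 / 256 * 36 ^ 4 * C0, by positivity, fun v hv hdiv b ν hν => ?_⟩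
  set w : Fin 3 → V → ℝ := fun i x => v i x - ∫ y in cube, v i y with hw
  have hws : ∀ i, SP (w i) := fun i => sp_sub_const (hv i) _
  have hpd : ∀ i j, pd j (w i) = pd j (v i) := fun i j => pd_sub_const _ _ j
  have hlap : ∀ i, lap (w i) = lap (v i) := fun i => lap_sub_const _ _
  have hcub : cub w = cub v := by
    unfold cub
    simp only [hpd]
  have hDd : ∀ e, Dd w e = Dd v e := by
    intro e
    unfold Dd
    simp only [hpd]
  have hNn : Nn w = Nm v := rfl
  have h1 := h0 w hws b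
  simp only [hDd, hNn] at h1
  set P : ℝ := C0 * ∏ k, (Dd v (b k) + Nm v) with hP
  have hP0 : 0 ≤ P := mul_nonneg hC0.le (Finset.prod_nonneg fun k _ =>
    add_nonneg (Dd_nonneg _ _) (Nm_nonneg _))
  set X : ℝ := ∑ i, ∫ x in cube, lap (v i) x ^ 2 with hX
  have hX0 : 0 ≤ X := Finset.sum_nonneg fun _ _ => integral_nonneg fun _ => sq_nonneg _
  set p : ℝ := P ^ (1 / 12 : ℝ) with hp
  set x : ℝ := X ^ (1 / 4 : ℝ) with hx
  have hp0 : 0 ≤ p := Real.rpow_nonneg hP0 _
  have hx0 : 0 ≤ x := Real.rpow_nonneg hX0 _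
  have hp12 : p ^ 12 = P := by
    rw [hp, ← Real.rpow_natCast, ← Real.rpow_mul hP0]; norm_num
  have hx4 : x ^ 4 = X := by
    rw [hx, ← Real.rpow_natCast, ← Real.rpow_mul hX0]; norm_num
  have k1 : ∀ y, ∑ i, pd i (w i) y = 0 := by
    intro y
    simp only [hpd]
    exact hdiv y
  have k2 : ∫ y in cube, (∑ i, w i y ^ 2) ^ 3 ≤ p ^ 12 := by
    rw [hp12]
    exact h1
  have k3 : ∑ i, ∫ y in cube, lap (w i) y ^ 2 ≤ x ^ 4 := by
    rw [hx4]
    have : ∑ i, ∫ y in cube, lap (w i) y ^ 2 = X := by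
      simp only [hlap, hX]
    exact this.le
  have h2 := cub_le hws k1 hp0 hx0 k2 k3
  rw [hcub] at h2
  clear_value p x P X
  have h3 := quartic (z := x) (s := 36 / ν * p ^ 3) hx0 (by positivity)
  have h4 : 36 * (p ^ 3 * x ^ 3) = ν * (36 / ν * p ^ 3 * x ^ 3) := by
    field_simp
  have h5 : ν * (27 / 256 * (36 / ν * p ^ 3) ^ 4)
      = 27 / 256 * 36 ^ 4 * C0 / ν ^ 3 * ∏ k, (Dd v (b k) + Nm v) := by
    have : (36 / ν * p ^ 3) ^ 4 = 36 ^ 4 / ν ^ 4 * P := by
      rw [mul_pow, div_pow, ← pow_mul, ← hp12]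
    rw [this, hP]
    field_simp
  calc 2 * |cub v| ≤ 36 * (p ^ 3 * x ^ 3) := by linarith
    _ = ν * (36 / ν * p ^ 3 * x ^ 3) := h4
    _ ≤ ν * (x ^ 4 + 27 / 256 * (36 / ν * p ^ 3) ^ 4) := by gcongr
    _ = ν * X + ν * (27 / 256 * (36 / ν * p ^ 3) ^ 4) := by rw [hx4]; ring
    _ = _ := by rw [h5]

/-- the enstrophy matrix in coordinates -/
noncomputable def Gm (v : Fin 3 → V → ℝ) : Matrix (Fin 3) (Fin 3) ℝ := fun j k =>
  ∑ i, ∫ x in cube, pd j (v i) x * pd k (v i) x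

theorem Gm_herm (v : Fin 3 → V → ℝ) : (Gm v).IsHermitian := by
  ext j k
  simp only [Gm, Matrix.conjTranspose_apply, star_trivial]
  refine Finset.sum_congr rfl fun i _ => ?_
  congr 1
  funext x
  ring

theorem Dd_eq {v : Fin 3 → V → ℝ} (hv : ∀ i, SP (v i)) (e : E3) :
    Dd v e = (e : Fin 3 → ℝ) ⬝ᵥ (Gm v).mulVec (e : Fin 3 → ℝ) := by
  have h1 : ∀ i, ∫ x in cube, (∑ j, e j * pd j (v i) x) ^ 2
      = ∑ j, ∑ k, e j * (e k * ∫ x in cube, pd j (v i) x * pd k (v i) x) := by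
    intro i
    have e1 : ∀ x, (∑ j, e j * pd j (v i) x) ^ 2
        = ∑ j, ∑ k, e j * (e k * (pd j (v i) x * pd k (v i) x)) := by
      intro x
      rw [sq, Finset.sum_mul_sum]
      refine Finset.sum_congr rfl fun j _ => Finset.sum_congr rfl fun k _ => ?_
      ring
    simp_rw [e1]
    have i1 : ∀ j k, Integrable (fun x => e j * (e k * (pd j (v i) x * pd k (v i) x)))
        (volume.restrict cube) := fun j k =>
      ((((hv i).pd j).mul ((hv i).pd k)).int.const_mul _).const_mul _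
    rw [integral_finsetSum _ fun j _ => integrable_finsetSum _ fun k _ => i1 j k]
    refine Finset.sum_congr rfl fun j _ => ?_
    rw [integral_finsetSum _ fun k _ => i1 j k]
    refine Finset.sum_congr rfl fun k _ => ?_
    rw [integral_const_mul, integral_const_mul]
  unfold Dd
  simp_rw [h1]
  simp only [dotProduct, Matrix.mulVec, Gm]
  rw [Finset.sum_comm]
  refine Finset.sum_congr rfl fun j _ => ?_
  rw [Finset.sum_comm, Finset.mul_sum]
  refine Finset.sum_congr rfl fun k _ => ?_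
  rw [Finset.sum_mul, Finset.mul_sum]
  refine Finset.sum_congr rfl fun i _ => ?_
  ring

theorem exists_eigen {v : Fin 3 → V → ℝ} (hv : ∀ i, SP (v i)) (N : ℝ) :
    ∃ b : OrthonormalBasis (Fin 3) ℝ E3,
      ∏ k, (Dd v (b k) + N) = (Gm v + N • (1 : Matrix (Fin 3) (Fin 3) ℝ)).det := by
  have hA : (Gm v + N • (1 : Matrix (Fin 3) (Fin 3) ℝ)).IsHermitian := by
    refine (Gm_herm v).add ?_
    rw [Matrix.IsHermitian, Matrix.conjTranspose_smul, Matrix.conjTranspose_one]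
    simp
  refine ⟨hA.eigenvectorBasis, ?_⟩
  rw [hA.det_eq_prod_eigenvalues]
  refine Finset.prod_congr rfl fun k _ => ?_
  set e := hA.eigenvectorBasis k with he
  have h1 := hA.mulVec_eigenvectorBasis k
  have h2 : (e : Fin 3 → ℝ) ⬝ᵥ (e : Fin 3 → ℝ) = 1 := by
    have h3 : ‖e‖ ^ 2 = 1 := by
      rw [he, hA.eigenvectorBasis.orthonormal.1 k]; norm_num
    rw [EuclideanSpace.norm_sq_eq] at h3
    simp only [dotProduct, ← sq]
    simpa using h3
  have h4 := congrArg (fun z => (e : Fin 3 → ℝ) ⬝ᵥ z) h1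
  simp only [Matrix.add_mulVec, dotProduct_add, dotProduct_smul] at h4
  rw [← he] at h4
  rw [h2, Matrix.smul_mulVec, Matrix.one_mulVec, dotProduct_smul, h2, ← Dd_eq hv] at h4
  simpa using h4

theorem Dd_le {v : Fin 3 → V → ℝ} (hv : ∀ i, SP (v i)) {e : E3} (he : ‖e‖ = 1) :
    Dd v e ≤ ∑ i, ∑ j, ∫ x in cube, pd j (v i) x ^ 2 := by
  unfold Dd
  refine Finset.sum_le_sum fun i _ => ?_
  have hpc : ∀ j, Continuous (pd j (v i)) := fun j => ((hv i).pd j).cont
  have i1 : ∀ j ∈ (Finset.univ : Finset (Fin 3)),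
      Integrable (fun x => pd j (v i) x ^ 2) (volume.restrict cube) := fun j _ =>
    integrableOn_cube ((hpc j).pow 2)
  rw [← integral_finsetSum _ i1]
  refine integral_mono (integrableOn_cube (by fun_prop)) (integrableOn_cube (by fun_prop))
    fun x => ?_
  have h1 := Finset.sum_mul_sq_le_sq_mul_sq Finset.univ (fun j => e j) (fun j => pd j (v i) x)
  have h2 : ∑ j, e j ^ 2 = 1 := by
    have h3 : ‖e‖ ^ 2 = 1 := by rw [he]; norm_num
    rw [EuclideanSpace.norm_sq_eq] at h3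
    simpa using h3
  rw [h2, one_mul] at h1
  exact h1

theorem Nm_le {v : Fin 3 → V → ℝ} (hv : ∀ i, SP (v i)) :
    Nm v ≤ ∑ i, ∑ j, ∫ x in cube, pd j (v i) x ^ 2 := by
  unfold Nm
  refine Finset.sum_le_sum fun i _ => ?_
  have hs : SP (fun x => v i x - ∫ y in cube, v i y) := sp_sub_const (hv i) _
  have h0 : ∫ x in cube, (v i x - ∫ y in cube, v i y) = 0 := by
    rw [integral_sub (hv i).int (sp_const _).int]
    simp [Measure.real, volume_cube]
  have h1 := poincare hs h0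
  have h2 := pow_le_pow_left₀ (nrm_nonneg _) h1 2
  rw [nrm_sq, grd_sq] at h2
  simpa only [pd_sub_const] using h2

theorem Nm_le_energy {v : Fin 3 → V → ℝ} (hv : ∀ i, SP (v i)) :
    Nm v ≤ ∑ i, ∫ x in cube, v i x ^ 2 := by
  unfold Nm
  refine Finset.sum_le_sum fun i _ => ?_
  set m : ℝ := ∫ y in cube, v i y with hm
  have e1 : ∀ x, (v i x - m) ^ 2 = v i x ^ 2 + (-(2 * m) * v i x + m ^ 2) := fun x => by ring
  simp_rw [e1]
  have i1 : IntegrableOn (fun x => v i x ^ 2) cube := integrableOn_cube ((hv i).cont.pow 2)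
  have i2 : IntegrableOn (fun x => -(2 * m) * v i x) cube := (hv i).int.const_mul _
  have i3 : IntegrableOn (fun _ : V => m ^ 2) cube := (sp_const _).int
  have i23 : IntegrableOn (fun x => -(2 * m) * v i x + m ^ 2) cube := i2.add i3
  rw [integral_add i1 i23, integral_add i2 i3, integral_const_mul, ← hm]
  have e2 : ∫ _ : V in cube, m ^ 2 = m ^ 2 := by
    rw [integral_const]
    simp [Measure.real, volume_cube]
  rw [e2]
  nlinarith [sq_nonneg m]

end Q176.AD
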