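import Pool.Agent.Q176.AD.A3

/-!
Differential inequalities for the enstrophy of a smooth periodic Navier-Stokes solution in terms of
the directional energies, and their consequences for a blow-up.
-/

set_option autoImplicit false

open MeasureTheory Set Filter Topology
open scoped InnerProductSpace ENNReal ContDiff NNReal

namespace Q176.AD

open H459R3.NS

/-- the universal constant -/
noncomputable def Cc : ℝ := cub_bound.choose

theorem Cc_pos : 0 < Cc := cub_bound.choose_spec.1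

theorem Cc_spec {v : Fin 3 → V → ℝ} (hv : ∀ i, SP (v i)) (hdiv : ∀ x, ∑ i, pd i (v i) x = 0)
    (b : OrthonormalBasis (Fin 3) ℝ E3) {ν : ℝ} (hν : 0 < ν) :
    2 * |cub v| ≤ ν * (∑ i, ∫ x in cube, lap (v i) x ^ 2)
      + Cc / ν ^ 3 * ∏ k, (Dd v (b k) + Nm v) := cub_bound.choose_spec.2 v hv hdiv b ν hν

variable {ν T : ℝ} {u : ℝ → V → V} {p : ℝ → V → ℝ}

theorem fluc_nonneg (v : V → V) : 0 ≤ fluc v :=
  Finset.sum_nonneg fun _ _ => integral_nonneg fun _ => sq_nonneg _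

theorem dirEnergy_nonneg (v : V → V) (e : V) : 0 ≤ dirEnergy v e :=
  Finset.sum_nonneg fun _ _ => integral_nonneg fun _ => sq_nonneg _

theorem fluc_le_energy (h : IsSol ν T u p) {t : ℝ} (ht : t ∈ Ico 0 T) :
    fluc (u t) ≤ energy (u t) := Nm_le_energy (v := fun i y => u t y i) fun i => h.sp ht i

theorem fluc_le_enstrophy (h : IsSol ν T u p) {t : ℝ} (ht : t ∈ Ico 0 T) :
    fluc (u t) ≤ enstrophy (u t) := Nm_le (v := fun i y => u t y i) fun i => h.sp ht i

/-- The bound of the enstrophy production by the determinant. -/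
theorem prod_det (h : IsSol ν T u p) (hν : 0 < ν) {t : ℝ} (ht : t ∈ Ico 0 T) :
    2 * |cub (fun i y => u t y i)| ≤ ν * palin (u t)
      + Cc / ν ^ 3 * (enstrophyMatrix (u t)
        + fluc (u t) • (1 : Matrix (Fin 3) (Fin 3) ℝ)).det := by
  obtain ⟨b, hb⟩ := exists_eigen (v := fun i y => u t y i) (fun i => h.sp ht i)
    (Nm fun i y => u t y i)
  have h1 := Cc_spec (v := fun i y => u t y i) (fun i => h.sp ht i) (h.divfree t ht) b hν
  rw [hb] at h1
  exact h1

/-- The bound of the enstrophy production by the energy of one directional derivative. -/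
theorem prod_dir (h : IsSol ν T u p) (hν : 0 < ν) {t : ℝ} (ht : t ∈ Ico 0 T) {e : V}
    (he : ∑ j, e j ^ 2 = 1) :
    2 * |cub (fun i y => u t y i)| ≤ ν * palin (u t)
      + 4 * Cc / ν ^ 3 * ((dirEnergy (u t) e + fluc (u t)) * enstrophy (u t) ^ 2) := by
  set w : E3 := WithLp.toLp 2 e with hw
  have hw1 : ‖w‖ = 1 := by
    have h3 : ‖w‖ ^ 2 = 1 := by
      rw [EuclideanSpace.norm_sq_eq]
      simpa [hw] using he
    have h4 : 0 ≤ ‖w‖ := norm_nonneg _
    nlinarith [sq_nonneg (‖w‖ - 1)]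
  obtain ⟨b, hb⟩ := Orthonormal.exists_orthonormalBasis_extension_of_card_eq (𝕜 := ℝ) (E := E3)
    (ι := Fin 3) (by simp) (v := fun _ => w) (s := {0}) (by
      constructor
      · intro i; exact hw1
      · intro i j hij
        exact absurd (Subsingleton.elim i j) hij)
  have hb0 : b 0 = w := hb 0 rfl
  set v : Fin 3 → V → ℝ := fun i y => u t y i with hv
  have hs : ∀ i, SP (v i) := fun i => h.sp ht i
  have h1 := Cc_spec (v := v) hs (h.divfree t ht) b hν
  have hE : enstrophy (u t) = ∑ i, ∑ j, ∫ x in cube, pd j (v i) x ^ 2 := rfl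
  have hN : Nm v ≤ enstrophy (u t) := Nm_le hs
  have hd : ∀ k, Dd v (b k) ≤ enstrophy (u t) := fun k => Dd_le hs (b.orthonormal.1 k)
  have hN0 := Nm_nonneg v
  have hd0 : ∀ k, 0 ≤ Dd v (b k) := fun k => Dd_nonneg v (b k)
  have h2 : ∏ k, (Dd v (b k) + Nm v)
      ≤ (dirEnergy (u t) e + fluc (u t)) * (2 * enstrophy (u t)) ^ 2 := by
    rw [Fin.prod_univ_three, hb0, sq, mul_assoc]
    have e1 : Dd v w + Nm v = dirEnergy (u t) e + fluc (u t) := rfl
    rw [e1]
    have a1 : Dd v (b 1) + Nm v ≤ 2 * enstrophy (u t) := by linarith [hd 1]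
    have a2 : Dd v (b 2) + Nm v ≤ 2 * enstrophy (u t) := by linarith [hd 2]
    have a3 : 0 ≤ dirEnergy (u t) e + fluc (u t) :=
      add_nonneg (dirEnergy_nonneg _ _) (fluc_nonneg _)
    refine mul_le_mul_of_nonneg_left ?_ a3
    exact mul_le_mul a1 a2 (add_nonneg (hd0 2) hN0) (by linarith [enstrophy_nonneg (u t)])
  have h3 : Cc / ν ^ 3 * ∏ k, (Dd v (b k) + Nm v) ≤ 4 * Cc / ν ^ 3
      * ((dirEnergy (u t) e + fluc (u t)) * enstrophy (u t) ^ 2) := by
    have := mul_le_mul_of_nonneg_left h2 (div_pos Cc_pos (pow_pos hν 3)).le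
    refine this.trans (le_of_eq ?_)
    ring
  have h4 : ∑ i, ∫ x in cube, lap (v i) x ^ 2 = palin (u t) := rfl
  rw [h4] at h1
  linarith

/-- The enstrophy bounds the directional energies. -/
theorem dirEnergy_le (h : IsSol ν T u p) {t : ℝ} (ht : t ∈ Ico 0 T) {e : V}
    (he : ∑ j, e j ^ 2 = 1) : dirEnergy (u t) e ≤ enstrophy (u t) := by
  set w : E3 := WithLp.toLp 2 e with hw
  have hw1 : ‖w‖ = 1 := by
    have h3 : ‖w‖ ^ 2 = 1 := by
      rw [EuclideanSpace.norm_sq_eq]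
      simpa [hw] using he
    have h4 : 0 ≤ ‖w‖ := norm_nonneg _
    nlinarith [sq_nonneg (‖w‖ - 1)]
  exact Dd_le (v := fun i y => u t y i) (fun i => h.sp ht i) hw1

/-- Bounded enstrophy implies bounded velocity. -/
theorem bounded_of_enstrophy (h : IsSol ν T u p) (hν : 0 < ν) {B : ℝ}
    (hB : ∀ t ∈ Ico 0 T, enstrophy (u t) ≤ B) : ∃ M, ∀ t ∈ Ico 0 T, ∀ x i, |u t x i| ≤ M := by
  have hC := Cc_pos
  set g : ℝ := 8 * Cc / ν ^ 3 * B ^ 2 with hg
  have hg0 : 0 ≤ g := by positivity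
  set e0 : V := Pi.single 0 1 with he0
  have he : ∑ j, e0 j ^ 2 = 1 := by
    rw [Fin.sum_univ_three]
    simp [he0]
  refine (h.gron hν (g := fun _ => g) (B := |g * T|) (δ := 1) one_pos (fun _ _ => hg0)
    (fun t _ => integrableOn_const (by simp)) (fun t ht => ?_) (fun s hs => ?_)).2
  · rw [intervalIntegral.integral_const, smul_eq_mul]
    have h1 : (t - 0) * g ≤ g * T := by nlinarith [ht.1, ht.2]
    exact h1.trans (le_abs_self _)
  · have hs' : s ∈ Ico 0 T := ⟨hs.1.le, hs.2⟩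
    have h1 := prod_dir h hν hs' he
    have h2 := dirEnergy_le h hs' he
    have h3 := fluc_le_enstrophy h hs'
    have h4 := enstrophy_nonneg (u s)
    have h5 := hB s hs'
    have h6 : (dirEnergy (u s) e0 + fluc (u s)) * enstrophy (u s) ^ 2
        ≤ 2 * (B ^ 2 * enstrophy (u s)) := by
      calc (dirEnergy (u s) e0 + fluc (u s)) * enstrophy (u s) ^ 2
          ≤ (2 * enstrophy (u s)) * enstrophy (u s) ^ 2 := by
            refine mul_le_mul_of_nonneg_right (by linarith) (sq_nonneg _)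
        _ = 2 * (enstrophy (u s) ^ 2 * enstrophy (u s)) := by ring
        _ ≤ 2 * (B ^ 2 * enstrophy (u s)) := by gcongr
    have h7 : 4 * Cc / ν ^ 3 * ((dirEnergy (u s) e0 + fluc (u s)) * enstrophy (u s) ^ 2)
        ≤ g * enstrophy (u s) := by
      refine (mul_le_mul_of_nonneg_left h6 (by positivity)).trans (le_of_eq ?_)
      rw [hg]
      ring
    have h8 : -(2 * cub (fun i y => u s y i)) ≤ 2 * |cub (fun i y => u s y i)| := by
      have := neg_abs_le (cub (fun i y => u s y i))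
      linarith
    show -(2 * cub (fun i y => u s y i)) ≤ (2 - 1) * (ν * palin (u s)) + g * enstrophy (u s)
    linarith

/-- `1 / E(s) - 1 / E(t) ≤ (4 C / ν³) ∫ₛᵗ g` if `g` majorizes the energies of the derivatives of `u`
in some directions which may depend on the time. -/
theorem inv_diff (h : IsSol ν T u p) (hν : 0 < ν) {g : ℝ → ℝ} {s t : ℝ} (hs0 : 0 ≤ s) (hst : s ≤ t)
    (htT : t < T) (hgi : IntegrableOn g (Icc s t))
    (hg : ∀ r ∈ Ioo s t, ∃ e : V, ∑ j, e j ^ 2 = 1 ∧ dirEnergy (u r) e + fluc (u r) ≤ g r)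
    {ε : ℝ} (hε : 0 < ε) :
    1 / (enstrophy (u s) + ε) - 1 / (enstrophy (u t) + ε)
      ≤ 4 * Cc / ν ^ 3 * ∫ r in s..t, g r := by
  have hC := Cc_pos
  set y : ℝ → ℝ := fun r => enstrophy (u r) with hy
  have hy0 : ∀ r, 0 ≤ y r := fun r => enstrophy_nonneg _
  have hpos : ∀ r, 0 < y r + ε := fun r => by linarith [hy0 r]
  have hyc : ContinuousOn y (Icc s t) :=
    h.enstrophy_continuousOn.mono fun r hr => ⟨hs0.trans hr.1, hr.2.trans_lt htT⟩
  have hc : ContinuousOn (fun r => -(y r + ε)⁻¹) (Icc s t) :=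
    ((hyc.add continuousOn_const).inv₀ fun r _ => (hpos r).ne').neg
  set y' : ℝ → ℝ := fun r => -(2 * ν * palin (u r)) - 2 * cub (fun i x => u r x i) with hy'
  have hd' : ∀ r ∈ Ioo s t, HasDerivWithinAt (fun r => -(y r + ε)⁻¹)
      (y' r / (y r + ε) ^ 2) (Ioi r) r := by
    intro r hr
    have hr' : r ∈ Ioo 0 T := ⟨hs0.trans_lt hr.1, hr.2.trans htT⟩
    have h1 : HasDerivAt (fun r => y r + ε) (y' r) r := (h.enstrophy_hasDerivAt hr').add_const ε
    have h2 := (h1.fun_inv (hpos r).ne').fun_neg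
    refine (h2.congr_deriv ?_).hasDerivWithinAt
    ring
  have hle : ∀ r ∈ Ioo s t, y' r / (y r + ε) ^ 2 ≤ 4 * Cc / ν ^ 3 * g r := by
    intro r hr
    have hr' : r ∈ Ico 0 T := ⟨(hs0.trans_lt hr.1).le, hr.2.trans htT⟩
    obtain ⟨e, he, heg⟩ := hg r hr
    have h1 := prod_dir h hν hr' he
    have h2 : y' r ≤ 4 * Cc / ν ^ 3 * (g r * y r ^ 2) := by
      have a1 : -(2 * cub (fun i x => u r x i)) ≤ 2 * |cub (fun i x => u r x i)| := by
        have := neg_abs_le (cub (fun i x => u r x i))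
        linarith
      have a2 : (dirEnergy (u r) e + fluc (u r)) * enstrophy (u r) ^ 2 ≤ g r * y r ^ 2 :=
        mul_le_mul_of_nonneg_right heg (sq_nonneg _)
      have a3 := mul_le_mul_of_nonneg_left a2 (show 0 ≤ 4 * Cc / ν ^ 3 by positivity)
      have a4 : 0 ≤ ν * palin (u r) := mul_nonneg hν.le (palin_nonneg _)
      simp only [hy']
      linarith
    have hg0 : 0 ≤ g r :=
      (add_nonneg (dirEnergy_nonneg (u r) e) (fluc_nonneg (u r))).trans heg
    rw [div_le_iff₀ (pow_pos (hpos r) 2)]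
    refine h2.trans ?_
    rw [mul_assoc]
    have a5 : y r ^ 2 ≤ (y r + ε) ^ 2 := pow_le_pow_left₀ (hy0 r) (by linarith) 2
    gcongr
  have key := intervalIntegral.sub_le_integral_of_hasDeriv_right_of_le hst hc hd'
    (hgi.const_mul (4 * Cc / ν ^ 3)) hle
  rw [intervalIntegral.integral_const_mul] at key
  simp only [one_div]
  have e1 : y s = enstrophy (u s) := rfl
  have e2 : y t = enstrophy (u t) := rfl
  rw [← e1, ← e2]
  linarith

/-- If the enstrophy is bounded after time `s` then it is bounded. -/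
theorem exists_large (h : IsSol ν T u p) (hν : 0 < ν)
    (hub : ¬ ∃ M, ∀ t ∈ Ico 0 T, ∀ x i, |u t x i| ≤ M) {s : ℝ} (hs : s ∈ Ico 0 T) (R : ℝ) :
    ∃ t ∈ Ioo s T, R < enstrophy (u t) := by
  by_contra hcon
  push Not at hcon
  apply hub
  have hc : ContinuousOn (fun r => enstrophy (u r)) (Icc 0 s) :=
    h.enstrophy_continuousOn.mono fun r hr => ⟨hr.1, hr.2.trans_lt hs.2⟩
  obtain ⟨r0, _, hr0⟩ := isCompact_Icc.exists_isMaxOn ⟨0, left_mem_Icc.2 hs.1⟩ hc
  refine bounded_of_enstrophy h hν (B := max R (enstrophy (u r0))) fun t ht => ?_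
  rcases le_or_gt t s with h1 | h1
  · exact (hr0 ⟨ht.1, h1⟩).trans (le_max_right _ _)
  · exact (hcon t ⟨h1, ht.2⟩).trans (le_max_left _ _)

/-- The rate of the blow-up in every direction. -/
theorem rate (h : IsSol ν T u p) (hν : 0 < ν)
    (hub : ¬ ∃ M, ∀ t ∈ Ico 0 T, ∀ x i, |u t x i| ≤ M) {g : ℝ → ℝ} {s : ℝ} (hs : s ∈ Ico 0 T)
    (hgi : ∀ t ∈ Ioo s T, IntegrableOn g (Icc s t))
    (hg : ∀ r ∈ Ioo s T, ∃ e : V, ∑ j, e j ^ 2 = 1 ∧ dirEnergy (u r) e + fluc (u r) ≤ g r)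
    {Γ : ℝ} (hΓ : ∀ t ∈ Ioo s T, ∫ r in s..t, g r ≤ Γ) :
    ν ^ 3 ≤ 4 * Cc * (enstrophy (u s) * Γ) := by
  have hC := Cc_pos
  set a : ℝ := 4 * Cc / ν ^ 3 with ha
  have ha0 : 0 < a := by positivity
  have hE0 := enstrophy_nonneg (u s)
  -- `1 ≤ a (E(s) + ε) Γ` for all `ε > 0`
  have h1 : ∀ ε : ℝ, 0 < ε → 1 / (enstrophy (u s) + ε) ≤ a * Γ := by
    intro ε hε
    refine le_of_forall_pos_le_add fun δ hδ => ?_
    obtain ⟨t, ht, htR⟩ := exists_large h hν hub hs (1 / δ)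
    have h2 := inv_diff h hν hs.1 ht.1.le ht.2 (hgi t ht)
      (fun r hr => hg r ⟨hr.1, hr.2.trans ht.2⟩) hε
    have h3 : 1 / (enstrophy (u t) + ε) ≤ δ := by
      rw [div_le_iff₀ (by linarith [enstrophy_nonneg (u t)])]
      have : 1 < enstrophy (u t) * δ := by
        rwa [div_lt_iff₀ hδ] at htR
      nlinarith
    have h4 : a * ∫ r in s..t, g r ≤ a * Γ := mul_le_mul_of_nonneg_left (hΓ t ht) ha0.le
    linarith
  have h2 : ∀ ε : ℝ, 0 < ε → 1 ≤ a * Γ * (enstrophy (u s) + ε) := by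
    intro ε hε
    have := h1 ε hε
    rwa [div_le_iff₀ (by linarith)] at this
  have hlim : Tendsto (fun ε : ℝ => a * Γ * (enstrophy (u s) + ε)) (𝓝[>] 0)
      (𝓝 (a * Γ * (enstrophy (u s) + 0))) := by
    have : Continuous fun ε : ℝ => a * Γ * (enstrophy (u s) + ε) := by fun_prop
    exact (this.tendsto 0).mono_left nhdsWithin_le_nhds
  have h3 : 1 ≤ a * Γ * (enstrophy (u s) + 0) := by
    refine ge_of_tendsto hlim ?_
    filter_upwards [self_mem_nhdsWithin] with ε hε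
    exact h2 ε hε
  rw [add_zero, ha] at h3
  have hν3 : 0 < ν ^ 3 := pow_pos hν 3
  have h4 : ν ^ 3 * 1 ≤ ν ^ 3 * (4 * Cc / ν ^ 3 * Γ * enstrophy (u s)) :=
    mul_le_mul_of_nonneg_left h3 hν3.le
  have h5 : ν ^ 3 * (4 * Cc / ν ^ 3 * Γ * enstrophy (u s)) = 4 * Cc * (enstrophy (u s) * Γ) := by
    field_simp
  linarith

end Q176.AD
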