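import Pool.Agent.Q176.AD.A4

/-!
The evolution of the energy of a directional derivative along a smooth periodic Navier-Stokes
solution.
-/

set_option autoImplicit false

open MeasureTheory Set Filter Topology
open scoped InnerProductSpace ENNReal ContDiff NNReal

namespace Q176.AD

open H459R3.NS

/-- the derivative in the direction `e` -/
noncomputable def de (e : V) (f : V → ℝ) (x : V) : ℝ := ∑ j, e j * pd j f x

theorem sp_de {f : V → ℝ} (hf : SP f) (e : V) : SP (de e f) :=
  SP.sum fun j _ => (sp_const (e j)).mul (hf.pd j)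

theorem pd_const_mul {f : V → ℝ} (hf : SP f) (c : ℝ) (j : Fin 3) (x : V) :
    pd j (fun y => c * f y) x = c * pd j f x := by
  have h := pd_mul (sp_const c) hf j x
  have h0 : pd j (fun _ : V => c) x = 0 := by
    unfold pd; simp
  rw [h, h0]
  ring

theorem pd_de {f : V → ℝ} (hf : SP f) (e : V) (j : Fin 3) : pd j (de e f) = de e (pd j f) := by
  funext x
  unfold de
  rw [pd_sum (fun k _ => (sp_const (e k)).mul (hf.pd k)) j x]
  refine Finset.sum_congr rfl fun k _ => ?_
  rw [pd_const_mul (hf.pd k), pd_comm hf j k]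

theorem lap_de {f : V → ℝ} (hf : SP f) (e : V) : lap (de e f) = de e (lap f) := by
  funext x
  unfold lap
  have h1 : ∀ j, pd j (pd j (de e f)) x = de e (pd j (pd j f)) x := by
    intro j
    rw [pd_de hf, pd_de (hf.pd j)]
  simp_rw [h1]
  unfold de
  rw [Finset.sum_comm]
  refine Finset.sum_congr rfl fun k _ => ?_
  rw [pd_sum (fun j _ => (hf.pd j).pd j) k x, Finset.mul_sum]

theorem de_mul {f g : V → ℝ} (hf : SP f) (hg : SP g) (e : V) (x : V) :
    de e (fun y => f y * g y) x = de e f x * g x + f x * de e g x := by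
  unfold de
  rw [Finset.sum_mul, Finset.mul_sum, ← Finset.sum_add_distrib]
  refine Finset.sum_congr rfl fun j _ => ?_
  rw [pd_mul hf hg]
  ring

theorem de_sum {f : Fin 3 → V → ℝ} (hf : ∀ i, SP (f i)) (e : V) (x : V) :
    de e (fun y => ∑ i, f i y) x = ∑ i, de e (f i) x := by
  unfold de
  rw [Finset.sum_comm]
  refine Finset.sum_congr rfl fun j _ => ?_
  rw [pd_sum (fun i _ => hf i) j x, Finset.mul_sum]

theorem de_conv {v : Fin 3 → V → ℝ} (hv : ∀ i, SP (v i)) (e : V) (i : Fin 3) (x : V) :
    de e (conv v i) x = ∑ j, (de e (v j) x * pd j (v i) x + v j x * pd j (de e (v i)) x) := by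
  have h1 : conv v i = fun y => ∑ j, (fun y => v j y * pd j (v i) y) y := rfl
  rw [h1, de_sum (fun j => (hv j).mul ((hv i).pd j))]
  refine Finset.sum_congr rfl fun j _ => ?_
  rw [de_mul (hv j) ((hv i).pd j), pd_de (hv i)]

theorem integral_de {f : V → ℝ} (hf : SP f) (e : V) : ∫ x in cube, de e f x = 0 := by
  unfold de
  have i1 : ∀ j ∈ (Finset.univ : Finset (Fin 3)),
      Integrable (fun x => e j * pd j f x) (volume.restrict cube) := fun j _ =>
    (hf.pd j).int.const_mul _
  rw [integral_finsetSum _ i1]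
  refine Finset.sum_eq_zero fun j _ => ?_
  rw [integral_const_mul, int_pd_zero hf j, mul_zero]

section deriv

variable {ν T : ℝ} {u : ℝ → V → V} {p : ℝ → V → ℝ}

theorem dirEnergy_hasDerivAt (h : IsSol ν T u p) {t : ℝ} (ht : t ∈ Ioo 0 T) (e : V) :
    HasDerivAt (fun s => dirEnergy (u s) e)
      (-(2 * ν * ∑ i, ∑ j, ∫ x in cube, pd j (de e (fun y => u t y i)) x ^ 2)
        - 2 * ∑ i, ∑ j, ∫ x in cube, de e (fun y => u t y i) x *
          (de e (fun y => u t y j) x * pd j (fun y => u t y i) x)) t := by
  have hI : t ∈ Ico 0 T := ⟨ht.1.le, ht.2⟩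
  set v : Fin 3 → V → ℝ := fun i y => u t y i with hv
  have hsp : ∀ i, SP (v i) := fun i => h.sp hI i
  have hdiv : ∀ x, ∑ i, pd i (v i) x = 0 := h.divfree t hI
  set g : Fin 3 → V → ℝ := fun i => de e (v i) with hg
  have hgs : ∀ i, SP (g i) := fun i => sp_de (hsp i) e
  have h1 : ∀ i, HasDerivAt (fun s => ∫ x in cube, (∑ j, e j * pd j (fun y => u s y i) x) ^ 2)
      (2 * ∫ x in cube, g i x * de e (dt (fun s y => u s y i) t) x) t := by
    intro i
    have hG : ContDiffOn ℝ ∞ (fun z : ℝ × V => ∑ j, e j * pd j (fun y => u z.1 y i) z.2)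
        (Ico 0 T ×ˢ univ) := ContDiffOn.sum fun j _ =>
      contDiffOn_const.mul (contDiffOn_pd (f := fun s y => u s y i) (h.smooth_c i) j)
    have hG1 : ContDiffOn ℝ 1 (fun z : ℝ × V => ∑ j, e j * pd j (fun y => u z.1 y i) z.2)
        (Ioo 0 T ×ˢ univ) :=
      mono_Ioo (f := fun s x => ∑ j, e j * pd j (fun y => u s y i) x) hG (by norm_cast)
    have hF : ContDiffOn ℝ 1 (fun z : ℝ × V => (∑ j, e j * pd j (fun y => u z.1 y i) z.2) ^ 2)
        (Ioo 0 T ×ˢ univ) := hG1.pow 2
    have key := hasDerivAt_int
      (F := fun s x => (∑ j, e j * pd j (fun y => u s y i) x) ^ 2) hF ht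
    refine key.congr_deriv ?_
    rw [← integral_const_mul]
    congr 1
    funext x
    have h2 : HasDerivAt (fun s => ∑ j, e j * pd j (fun y => u s y i) x)
        (de e (dt (fun s y => u s y i) t) x) t := by
      unfold de
      refine HasDerivAt.fun_sum fun j _ => ?_
      have hGj : ContDiffOn ℝ ∞ (fun z : ℝ × V => pd j (fun y => u z.1 y i) z.2)
        (Ico 0 T ×ˢ univ) := contDiffOn_pd (f := fun s y => u s y i) (h.smooth_c i) j
      have h3 := hasDerivAt_slice (F := fun s x => pd j (fun y => u s y i) x)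
        (mono_Ioo (f := fun s x => pd j (fun y => u s y i) x) hGj (by norm_cast)) ht x
      have h4 := dt_pd (f := fun s y => u s y i) (h.smooth_c i) ht j x
      rw [H459R3.NS.dt_eq (f := fun s => pd j (fun y => u s y i)) hGj ht x] at h4
      rw [h4] at h3
      exact h3.const_mul (e j)
    have h3 : HasDerivAt (fun s => (∑ j, e j * pd j (fun y => u s y i) x) ^ 2) _ t := h2.pow 2
    rw [h3.deriv]
    simp only [hg, hv, de]
    push_cast
    ring
  have h2 : HasDerivAt (fun s => dirEnergy (u s) e)
      (∑ i, 2 * ∫ x in cube, g i x * de e (dt (fun s y => u s y i) t) x) t :=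
    HasDerivAt.fun_sum fun i _ => h1 i
  refine h2.congr_deriv ?_
  have hde : ∀ i x, de e (dt (fun s y => u s y i) t) x
      = ν * lap (g i) x - (∑ j, (g j x * pd j (v i) x + v j x * pd j (g i) x))
        - pd i (de e (p t)) x := by
    intro i x
    have e1 : dt (fun s y => u s y i) t
        = fun x => (ν * lap (v i) x + (-1) * conv v i x) + (-1) * pd i (p t) x := by
      funext x
      rw [h.dt_eq ht]
      ring
    have s1 : SP (fun x => ν * lap (v i) x) := (sp_const ν).mul (hsp i).lap
    have s2 : SP (fun x => (-1 : ℝ) * conv v i x) := (sp_const _).mul (sp_conv hsp i)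
    have s3 : SP (fun x => (-1 : ℝ) * pd i (p t) x) := (sp_const _).mul ((h.sp_p hI).pd i)
    have e2 : ∀ {a b : V → ℝ}, SP a → SP b →
        de e (fun x => a x + b x) x = de e a x + de e b x := by
      intro a b ha hb
      unfold de
      rw [← Finset.sum_add_distrib]
      refine Finset.sum_congr rfl fun j _ => ?_
      have : pd j (fun x => a x + b x) x = pd j a x + pd j b x := by
        unfold pd
        rw [fderiv_fun_add (ha.diff x) (hb.diff x)]
        rfl
      rw [this]
      ring
    have e3 : ∀ {a : V → ℝ} (c : ℝ), SP a → de e (fun x => c * a x) x = c * de e a x := by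
      intro a c ha
      unfold de
      rw [Finset.mul_sum]
      refine Finset.sum_congr rfl fun j _ => ?_
      rw [pd_const_mul ha]
      ring
    rw [e1, e2 (s1.add s2) s3, e2 s1 s2, e3 ν (hsp i).lap, e3 (-1) (sp_conv hsp i),
      e3 (-1) ((h.sp_p hI).pd i), de_conv hsp e i x, ← lap_de (hsp i), ← pd_de (h.sp_p hI)]
    ring
  have e1 : ∀ i, ∫ x in cube, g i x * de e (dt (fun s y => u s y i) t) x
      = ν * (∫ x in cube, lap (g i) x * g i x)
        - ((∑ j, ∫ x in cube, g i x * (g j x * pd j (v i) x))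
          + ∑ j, ∫ x in cube, v j x * (g i x * pd j (g i) x))
        - ∫ x in cube, g i x * pd i (de e (p t)) x := by
    intro i
    have ee : ∀ x, g i x * de e (dt (fun s y => u s y i) t) x
        = ν * (lap (g i) x * g i x) - ((∑ j, g i x * (g j x * pd j (v i) x))
          + ∑ j, v j x * (g i x * pd j (g i) x)) - g i x * pd i (de e (p t)) x := by
      intro x
      rw [hde]
      have : ∑ j, (g j x * pd j (v i) x + v j x * pd j (g i) x)
          = (∑ j, g j x * pd j (v i) x) + ∑ j, v j x * pd j (g i) x := Finset.sum_add_distrib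
      rw [this]
      have a1 : ∑ j, g i x * (g j x * pd j (v i) x) = g i x * ∑ j, g j x * pd j (v i) x := by
        rw [Finset.mul_sum]
      have a2 : ∑ j, v j x * (g i x * pd j (g i) x) = g i x * ∑ j, v j x * pd j (g i) x := by
        rw [Finset.mul_sum]
        exact Finset.sum_congr rfl fun j _ => by ring
      rw [a1, a2]
      ring
    simp_rw [ee]
    have j1 : ∀ j, Integrable (fun x => g i x * (g j x * pd j (v i) x))
        (volume.restrict cube) := fun j => ((hgs i).mul ((hgs j).mul ((hsp i).pd j))).int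
    have j2 : ∀ j, Integrable (fun x => v j x * (g i x * pd j (g i) x))
        (volume.restrict cube) := fun j => ((hsp j).mul ((hgs i).mul ((hgs i).pd j))).int
    have i1 : Integrable (fun x => ν * (lap (g i) x * g i x)) (volume.restrict cube) :=
      ((hgs i).lap.mul (hgs i)).int.const_mul ν
    have i2 : Integrable (fun x => (∑ j, g i x * (g j x * pd j (v i) x)))
        (volume.restrict cube) := integrable_finsetSum _ fun j _ => j1 j
    have i3 : Integrable (fun x => (∑ j, v j x * (g i x * pd j (g i) x)))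
        (volume.restrict cube) := integrable_finsetSum _ fun j _ => j2 j
    have i23 : Integrable (fun x => (∑ j, g i x * (g j x * pd j (v i) x))
        + ∑ j, v j x * (g i x * pd j (g i) x)) (volume.restrict cube) := i2.add i3
    have i4 : Integrable (fun x => g i x * pd i (de e (p t)) x) (volume.restrict cube) :=
      ((hgs i).mul ((sp_de (h.sp_p hI) e).pd i)).int
    have i123 : Integrable (fun x => ν * (lap (g i) x * g i x)
        - ((∑ j, g i x * (g j x * pd j (v i) x)) + ∑ j, v j x * (g i x * pd j (g i) x)))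
        (volume.restrict cube) := i1.sub i23
    rw [integral_sub i123 i4, integral_sub i1 i23, integral_add i2 i3, integral_const_mul,
      integral_finsetSum _ fun j _ => j1 j, integral_finsetSum _ fun j _ => j2 j]
  simp_rw [e1]
  have hgdiv : ∀ x, ∑ i, pd i (g i) x = 0 := by
    intro x
    have a1 : ∀ i, pd i (g i) x = de e (pd i (v i)) x := fun i => by
      simp only [hg]
      rw [pd_de (hsp i)]
    simp_rw [a1]
    rw [← de_sum (f := fun i => pd i (v i)) (fun i => (hsp i).pd i)]
    have a2 : (fun y => ∑ i, pd i (v i) y) = fun _ => 0 := funext hdiv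
    rw [a2]
    unfold de pd
    simp
  have t1 : ∀ i, ∑ j, ∫ x in cube, v j x * (g i x * pd j (g i) x) = 0 := fun i =>
    transport_zero hsp hdiv (hgs i)
  have t2 : ∑ i, ∫ x in cube, g i x * pd i (de e (p t)) x = 0 :=
    int_press hgs hgdiv (sp_de (h.sp_p hI) e)
  have t3 : ∀ i, ∫ x in cube, lap (g i) x * g i x = -∑ j, ∫ x in cube, pd j (g i) x ^ 2 := by
    intro i
    rw [int_lap_mul (hgs i) (hgs i)]
    simp only [sq]
  simp_rw [t1, t3]
  rw [← Finset.mul_sum, Finset.sum_sub_distrib, Finset.sum_sub_distrib, t2, ← Finset.mul_sum,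
    Finset.sum_neg_distrib]
  simp only [add_zero]
  ring

end deriv

end Q176.AD
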