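import Pool.Agent.Q176.AD.A5
import Pool.Agent.H459R3.NS.Sob

/-!
The growth of the energy of a directional derivative.
-/

set_option autoImplicit false

open MeasureTheory Set Filter Topology
open scoped InnerProductSpace ENNReal ContDiff NNReal

namespace Q176.AD

open H459R3.NS

theorem sob6 : ∃ K : ℝ, 0 < K ∧ ∀ g : V → ℝ, SP g → ∫ x in cube, g x = 0 →
    ∫ x in cube, |g x| ^ 6 ≤ (K * grd g) ^ 6 := by
  obtain ⟨C, hC0, hC⟩ := sobolev
  refine ⟨2 * C + 1, by positivity, fun g hg h0 => ?_⟩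
  have h1 := hC g hg
  have h2 : (∑ j, ∫ x in cube, pd j g x ^ 2) + ∫ x in cube, g x ^ 2 ≤ (2 * grd g) ^ 2 := by
    have a1 := pow_le_pow_left₀ (nrm_nonneg _) (poincare hg h0) 2
    rw [nrm_sq] at a1
    rw [← grd_sq]
    nlinarith [sq_nonneg (grd g)]
  have h3 : Real.sqrt ((∑ j, ∫ x in cube, pd j g x ^ 2) + ∫ x in cube, g x ^ 2) ≤ 2 * grd g := by
    rw [Real.sqrt_le_left (by have := grd_nonneg g; positivity)]
    exact h2
  have h4 : eLpNorm g 6 (volume.restrict cube) ≤ ENNReal.ofReal ((2 * C + 1) * grd g) := by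
    refine h1.trans (ENNReal.ofReal_le_ofReal ?_)
    have a1 := mul_le_mul_of_nonneg_left h3 hC0
    have a2 := grd_nonneg g
    nlinarith
  rw [eLpNorm_eq_lintegral_rpow_enorm_toReal (by norm_num) (by norm_num)] at h4
  have e6 : (6 : ℝ≥0∞).toReal = 6 := by norm_num
  rw [e6] at h4
  have hgr := grd_nonneg g
  have e1 : ∀ x, ‖g x‖ₑ ^ (6 : ℝ) = ENNReal.ofReal (|g x| ^ 6) := by
    intro x
    rw [← ofReal_norm, ENNReal.ofReal_rpow_of_nonneg (norm_nonneg _) (by norm_num),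
      Real.norm_eq_abs]
    norm_cast
  simp_rw [e1] at h4
  rw [← ofReal_integral_eq_lintegral_ofReal (f := fun x => |g x| ^ 6)
    (integrableOn_cube (hg.cont.abs.pow 6)) (Eventually.of_forall fun x => by positivity),
    ENNReal.ofReal_rpow_of_nonneg (integral_nonneg fun x => by positivity) (by norm_num),
    ENNReal.ofReal_le_ofReal_iff (by positivity)] at h4
  have h5 := pow_le_pow_left₀ (Real.rpow_nonneg (integral_nonneg fun x => by positivity) _) h4 6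
  rw [← Real.rpow_natCast, ← Real.rpow_mul (integral_nonneg fun x => by positivity)] at h5
  norm_num at h5
  exact h5

theorem interp_pt {x p q : ℝ} (hx : 0 ≤ x) (hp : 0 < p) (hq : 0 < q) :
    x ^ 3 ≤ (p * q) ^ 3 * (3 / 4 * (x ^ 2 / p ^ 4) + 1 / 4 * (x ^ 6 / q ^ 12)) := by
  have h1 : 0 ≤ x ^ 2 * ((x * p - q ^ 3) ^ 2
      * ((x * p) ^ 2 + 2 * (x * p) * q ^ 3 + 3 * (q ^ 3) ^ 2)) := by positivity
  have h2 : x ^ 2 * ((x * p - q ^ 3) ^ 2
      * ((x * p) ^ 2 + 2 * (x * p) * q ^ 3 + 3 * (q ^ 3) ^ 2))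
      = x ^ 6 * p ^ 4 + 3 * x ^ 2 * q ^ 12 - 4 * x ^ 3 * p * q ^ 9 := by ring
  rw [h2] at h1
  have h3 : (p * q) ^ 3 * (3 / 4 * (x ^ 2 / p ^ 4) + 1 / 4 * (x ^ 6 / q ^ 12)) - x ^ 3
      = (x ^ 6 * p ^ 4 + 3 * x ^ 2 * q ^ 12 - 4 * x ^ 3 * p * q ^ 9) / (4 * p * q ^ 9) := by
    field_simp
    ring
  have h4 : 0 ≤ (x ^ 6 * p ^ 4 + 3 * x ^ 2 * q ^ 12 - 4 * x ^ 3 * p * q ^ 9) / (4 * p * q ^ 9) := by
    positivity
  linarith

theorem interp3_pos {g : V → ℝ} (hg : Continuous g) {p q : ℝ} (hp : 0 < p) (hq : 0 < q)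
    (h1 : ∫ x in cube, |g x| ^ 2 ≤ p ^ 4) (h2 : ∫ x in cube, |g x| ^ 6 ≤ q ^ 12) :
    ∫ x in cube, |g x| ^ 3 ≤ (p * q) ^ 3 := by
  have i1 : IntegrableOn (fun x => |g x| ^ 2) cube := integrableOn_cube (hg.abs.pow 2)
  have i2 : IntegrableOn (fun x => |g x| ^ 6) cube := integrableOn_cube (hg.abs.pow 6)
  have i3 : IntegrableOn (fun x => |g x| ^ 3) cube := integrableOn_cube (hg.abs.pow 3)
  have j1 : IntegrableOn (fun x => 3 / 4 * (|g x| ^ 2 / p ^ 4)) cube :=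
    (i1.div_const _).const_mul _
  have j2 : IntegrableOn (fun x => 1 / 4 * (|g x| ^ 6 / q ^ 12)) cube :=
    (i2.div_const _).const_mul _
  calc ∫ x in cube, |g x| ^ 3
      ≤ ∫ x in cube, (p * q) ^ 3 * (3 / 4 * (|g x| ^ 2 / p ^ 4) + 1 / 4 * (|g x| ^ 6 / q ^ 12)) :=
        integral_mono i3 ((j1.add j2).const_mul _) fun x => interp_pt (abs_nonneg _) hp hq
    _ = (p * q) ^ 3 * (3 / 4 * ((∫ x in cube, |g x| ^ 2) / p ^ 4)
          + 1 / 4 * ((∫ x in cube, |g x| ^ 6) / q ^ 12)) := by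
        rw [integral_const_mul, integral_add j1 j2, integral_const_mul, integral_const_mul,
          integral_div, integral_div]
    _ ≤ (p * q) ^ 3 * (3 / 4 * 1 + 1 / 4 * 1) := by
        have k1 : (∫ x in cube, |g x| ^ 2) / p ^ 4 ≤ 1 := by
          rw [div_le_one (by positivity)]; exact h1
        have k2 : (∫ x in cube, |g x| ^ 6) / q ^ 12 ≤ 1 := by
          rw [div_le_one (by positivity)]; exact h2
        gcongr
    _ = (p * q) ^ 3 := by ring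

theorem interp3 {g : V → ℝ} (hg : Continuous g) {p q : ℝ} (hp : 0 ≤ p) (hq : 0 ≤ q)
    (h1 : ∫ x in cube, |g x| ^ 2 ≤ p ^ 4) (h2 : ∫ x in cube, |g x| ^ 6 ≤ q ^ 12) :
    ∫ x in cube, |g x| ^ 3 ≤ (p * q) ^ 3 := by
  have h : ∀ ε : ℝ, 0 < ε → ∫ x in cube, |g x| ^ 3 ≤ ((p + ε) * (q + ε)) ^ 3 := by
    intro ε hε
    refine interp3_pos hg (by linarith) (by linarith) (h1.trans ?_) (h2.trans ?_)
    · gcongr; linarith
    · gcongr; linarith
  have hlim : Tendsto (fun ε : ℝ => ((p + ε) * (q + ε)) ^ 3) (𝓝[>] 0)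
      (𝓝 (((p + 0) * (q + 0)) ^ 3)) := by
    have : Continuous fun ε : ℝ => ((p + ε) * (q + ε)) ^ 3 := by fun_prop
    exact (this.tendsto 0).mono_left nhdsWithin_le_nhds
  simp only [add_zero] at hlim
  refine ge_of_tendsto hlim ?_
  filter_upwards [self_mem_nhdsWithin] with ε hε
  exact h ε hε

theorem dir_alg {ν q d h k K E D H S : ℝ} (hν : 0 < ν) (hq0 : 0 ≤ q) (hd0 : 0 ≤ d)
    (hh0 : 0 ≤ h) (hk0 : 0 ≤ k) (hq4 : q ^ 4 = E) (hd4 : d ^ 4 = D) (hh4 : h ^ 4 = H)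
    (hk2 : k ^ 2 = K) (hS : |S| ≤ 9 * (k ^ 3 * q ^ 2 * d * h ^ 3)) :
    |2 * S| ≤ 2 * ν * H + 27 / 256 * 18 ^ 4 * K ^ 6 / ν ^ 3 * (E ^ 2 * D) := by
  have hquart := quartic (z := h) (s := 18 / ν * (k ^ 3 * q ^ 2 * d)) hh0 (by positivity)
  have e1 : 18 * (k ^ 3 * q ^ 2 * d * h ^ 3)
      = ν * (18 / ν * (k ^ 3 * q ^ 2 * d) * h ^ 3) := by
    field_simp
  have e2 : ν * (27 / 256 * (18 / ν * (k ^ 3 * q ^ 2 * d)) ^ 4)
      = 27 / 256 * 18 ^ 4 * K ^ 6 / ν ^ 3 * (E ^ 2 * D) := by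
    rw [← hk2, ← hq4, ← hd4]
    field_simp
  rw [abs_mul, abs_two]
  have h5 : 2 * |S| ≤ 18 * (k ^ 3 * q ^ 2 * d * h ^ 3) := by linarith
  refine h5.trans ?_
  rw [e1]
  have h6 : ν * (18 / ν * (k ^ 3 * q ^ 2 * d) * h ^ 3)
      ≤ ν * (h ^ 4 + 27 / 256 * (18 / ν * (k ^ 3 * q ^ 2 * d)) ^ 4) :=
    mul_le_mul_of_nonneg_left hquart hν.le
  have h7 : ν * h ^ 4 ≤ 2 * ν * H := by
    rw [← hh4]
    have : 0 ≤ ν * h ^ 4 := by positivity
    linarith
  linarith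

/-- the growth of the energy of a directional derivative -/
theorem dir_bound : ∃ C : ℝ, 0 < C ∧ ∀ (v : Fin 3 → V → ℝ), (∀ i, SP (v i)) → ∀ (e : V) (ν : ℝ),
    0 < ν → |2 * ∑ i, ∑ j, ∫ x in cube, de e (v i) x * (de e (v j) x * pd j (v i) x)|
      ≤ 2 * ν * (∑ i, ∑ j, ∫ x in cube, pd j (de e (v i)) x ^ 2)
        + C / ν ^ 3 * ((∑ i, ∑ j, ∫ x in cube, pd j (v i) x ^ 2) ^ 2
          * ∑ i, ∫ x in cube, de e (v i) x ^ 2) := by
  obtain ⟨K, hK0, hK⟩ := sob6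
  refine ⟨27 / 256 * 18 ^ 4 * K ^ 6, by positivity, fun v hv e ν hν => ?_⟩
  set g : Fin 3 → V → ℝ := fun i => de e (v i) with hg
  have hgs : ∀ i, SP (g i) := fun i => sp_de (hv i) e
  have hg0 : ∀ i, ∫ x in cube, g i x = 0 := fun i => integral_de (hv i) e
  set E : ℝ := ∑ i, ∑ j, ∫ x in cube, pd j (v i) x ^ 2 with hE
  set D : ℝ := ∑ i, ∫ x in cube, g i x ^ 2 with hD
  set H : ℝ := ∑ i, ∑ j, ∫ x in cube, pd j (g i) x ^ 2 with hH
  have hE0 : 0 ≤ E := Finset.sum_nonneg fun _ _ => Finset.sum_nonneg fun _ _ =>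
    integral_nonneg fun _ => sq_nonneg _
  have hD0 : 0 ≤ D := Finset.sum_nonneg fun _ _ => integral_nonneg fun _ => sq_nonneg _
  have hH0 : 0 ≤ H := Finset.sum_nonneg fun _ _ => Finset.sum_nonneg fun _ _ =>
    integral_nonneg fun _ => sq_nonneg _
  set q : ℝ := Real.sqrt (Real.sqrt E) with hq
  set d : ℝ := Real.sqrt (Real.sqrt D) with hd
  set h : ℝ := Real.sqrt (Real.sqrt H) with hh
  set k : ℝ := Real.sqrt K with hk
  have hq0 : 0 ≤ q := Real.sqrt_nonneg _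
  have hd0 : 0 ≤ d := Real.sqrt_nonneg _
  have hh0 : 0 ≤ h := Real.sqrt_nonneg _
  have hk0 : 0 ≤ k := Real.sqrt_nonneg _
  have hq4 : q ^ 4 = E := by
    rw [show (4 : ℕ) = 2 * 2 by norm_num, pow_mul, hq, Real.sq_sqrt (Real.sqrt_nonneg _),
      Real.sq_sqrt hE0]
  have hd4 : d ^ 4 = D := by
    rw [show (4 : ℕ) = 2 * 2 by norm_num, pow_mul, hd, Real.sq_sqrt (Real.sqrt_nonneg _),
      Real.sq_sqrt hD0]
  have hh4 : h ^ 4 = H := by
    rw [show (4 : ℕ) = 2 * 2 by norm_num, pow_mul, hh, Real.sq_sqrt (Real.sqrt_nonneg _),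
      Real.sq_sqrt hH0]
  have hk2 : k ^ 2 = K := Real.sq_sqrt hK0.le
  have aE : ∀ i j, ∫ x in cube, |pd j (v i) x| ^ 2 ≤ (q ^ 2) ^ 2 := by
    intro i j
    rw [← pow_mul, hq4]
    simp only [sq_abs]
    refine le_trans ?_ (Finset.single_le_sum (f := fun i => ∑ j, ∫ x in cube, pd j (v i) x ^ 2)
      (fun _ _ => Finset.sum_nonneg fun _ _ => integral_nonneg fun _ => sq_nonneg _)
      (Finset.mem_univ i))
    exact Finset.single_le_sum (f := fun j => ∫ x in cube, pd j (v i) x ^ 2)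
      (fun _ _ => integral_nonneg fun _ => sq_nonneg _) (Finset.mem_univ j)
  have aD : ∀ i, ∫ x in cube, |g i x| ^ 2 ≤ d ^ 4 := by
    intro i
    rw [hd4]
    simp only [sq_abs]
    exact Finset.single_le_sum (f := fun i => ∫ x in cube, g i x ^ 2)
      (fun _ _ => integral_nonneg fun _ => sq_nonneg _) (Finset.mem_univ i)
  have aH : ∀ i, grd (g i) ≤ h ^ 2 := by
    intro i
    have h1 : grd (g i) ^ 2 ≤ (h ^ 2) ^ 2 := by
      rw [grd_sq, ← pow_mul, hh4]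
      exact Finset.single_le_sum (f := fun i => ∑ j, ∫ x in cube, pd j (g i) x ^ 2)
        (fun _ _ => Finset.sum_nonneg fun _ _ => integral_nonneg fun _ => sq_nonneg _)
        (Finset.mem_univ i)
    exact le_of_sq_le_sq h1 (by positivity)
  have a6 : ∀ i, ∫ x in cube, |g i x| ^ 6 ≤ (k * h) ^ 12 := by
    intro i
    refine (hK (g i) (hgs i) (hg0 i)).trans ?_
    have e1 : (k * h) ^ 12 = (K * h ^ 2) ^ 6 := by
      rw [← hk2]; ring
    rw [e1]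
    have := grd_nonneg (g i)
    have h1 : K * grd (g i) ≤ K * h ^ 2 := mul_le_mul_of_nonneg_left (aH i) hK0.le
    exact pow_le_pow_left₀ (by positivity) h1 6
  have a3 : ∀ i, ∫ x in cube, |g i x| ^ 3 ≤ (d * (k * h)) ^ 3 := fun i =>
    interp3 (hgs i).cont hd0 (by positivity) (aD i) (a6 i)
  have a6' : ∀ i, ∫ x in cube, |g i x| ^ 6 ≤ ((k * h) ^ 2) ^ 6 := by
    intro i
    rw [← pow_mul]
    exact a6 i
  have hterm : ∀ i j, |∫ x in cube, g i x * (g j x * pd j (v i) x)|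
      ≤ k ^ 3 * q ^ 2 * d * h ^ 3 := by
    intro i j
    have h1 := holder3 (hgs i).cont (hgs j).cont ((hv i).pd j).cont (by positivity)
      (by positivity) (by positivity) (a6' i) (a3 j) (aE i j)
    calc |∫ x in cube, g i x * (g j x * pd j (v i) x)|
        ≤ ∫ x in cube, |g i x * (g j x * pd j (v i) x)| := abs_integral_le_integral_abs
      _ = ∫ x in cube, |g i x| * |g j x| * |pd j (v i) x| := by
          congr 1
          funext x
          rw [abs_mul, abs_mul]; ring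
      _ ≤ (k * h) ^ 2 * (d * (k * h)) * q ^ 2 := h1
      _ = k ^ 3 * q ^ 2 * d * h ^ 3 := by ring
  have hsum : |∑ i, ∑ j, ∫ x in cube, g i x * (g j x * pd j (v i) x)|
      ≤ 9 * (k ^ 3 * q ^ 2 * d * h ^ 3) := by
    calc |∑ i, ∑ j, ∫ x in cube, g i x * (g j x * pd j (v i) x)|
        ≤ ∑ i, |∑ j, ∫ x in cube, g i x * (g j x * pd j (v i) x)| :=
          Finset.abs_sum_le_sum_abs _ _
      _ ≤ ∑ _i : Fin 3, ∑ _j : Fin 3, k ^ 3 * q ^ 2 * d * h ^ 3 :=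
          Finset.sum_le_sum fun i _ => (Finset.abs_sum_le_sum_abs _ _).trans
            (Finset.sum_le_sum fun j _ => hterm i j)
      _ = 9 * (k ^ 3 * q ^ 2 * d * h ^ 3) := by
          simp only [Finset.sum_const, Finset.card_univ, Fintype.card_fin, nsmul_eq_mul]
          push_cast
          ring
  exact dir_alg hν hq0 hd0 hh0 hk0 hq4 hd4 hh4 hk2 hsum

end Q176.AD
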