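import Pool.Agent.Q176.AD.A6

/-!
At a blow-up every directional derivative is large at every time.
-/

set_option autoImplicit false

open MeasureTheory Set Filter Topology
open scoped InnerProductSpace ENNReal ContDiff NNReal

namespace Q176.AD

open H459R3.NS

/-- the universal constant in the growth of directional energies -/
noncomputable def Cd : ℝ := dir_bound.choose

theorem Cd_pos : 0 < Cd := dir_bound.choose_spec.1

/-- the maximum of the constants -/
noncomputable def Ca : ℝ := max (4 * Cc) Cd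

theorem Ca_pos : 0 < Ca := lt_max_of_lt_right Cd_pos

theorem le_Ca1 : 4 * Cc ≤ Ca := le_max_left _ _

theorem le_Ca2 : Cd ≤ Ca := le_max_right _ _

variable {ν T : ℝ} {u : ℝ → V → V} {p : ℝ → V → ℝ}

theorem dirEnergy_deriv_le (h : IsSol ν T u p) (hν : 0 < ν) {t : ℝ} (ht : t ∈ Ioo 0 T) (e : V) :
    ∃ D' : ℝ, HasDerivAt (fun s => dirEnergy (u s) e) D' t ∧
      D' ≤ Ca / ν ^ 3 * (enstrophy (u t) ^ 2 * dirEnergy (u t) e) := by
  have hI : t ∈ Ico 0 T := ⟨ht.1.le, ht.2⟩
  refine ⟨_, dirEnergy_hasDerivAt h ht e, ?_⟩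
  have h1 := dir_bound.choose_spec.2 (fun i y => u t y i) (fun i => h.sp hI i) e ν hν
  have h2 := (abs_le.1 h1).1
  have h3 : dir_bound.choose / ν ^ 3 * (enstrophy (u t) ^ 2 * dirEnergy (u t) e)
      ≤ Ca / ν ^ 3 * (enstrophy (u t) ^ 2 * dirEnergy (u t) e) := by
    have a1 : 0 ≤ enstrophy (u t) ^ 2 * dirEnergy (u t) e :=
      mul_nonneg (sq_nonneg _) (dirEnergy_nonneg _ _)
    have a2 : dir_bound.choose ≤ Ca := le_Ca2
    have a3 : dir_bound.choose / ν ^ 3 ≤ Ca / ν ^ 3 :=
      div_le_div_of_nonneg_right a2 (pow_pos hν 3).le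
    exact mul_le_mul_of_nonneg_right a3 a1
  have h4 : dir_bound.choose / ν ^ 3 * ((∑ i, ∑ j, ∫ x in cube,
      pd j ((fun i y => u t y i) i) x ^ 2) ^ 2 * ∑ i, ∫ x in cube,
        de e ((fun i y => u t y i) i) x ^ 2)
      = dir_bound.choose / ν ^ 3 * (enstrophy (u t) ^ 2 * dirEnergy (u t) e) := rfl
  rw [h4] at h2
  refine le_trans ?_ h3
  linarith

theorem dirEnergy_continuousOn (h : IsSol ν T u p) (e : V) :
    ContinuousOn (fun s => dirEnergy (u s) e) (Ico 0 T) := by
  unfold dirEnergy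
  refine continuousOn_finsetSum _ fun i _ => ?_
  refine continuousOn_int (F := fun s x => (∑ j, e j * pd j (fun y => u s y i) x) ^ 2) ?_
  have : ContDiffOn ℝ ∞ (fun z : ℝ × V => ∑ j, e j * pd j (fun y => u z.1 y i) z.2)
      (Ico 0 T ×ˢ univ) := ContDiffOn.sum fun j _ =>
    contDiffOn_const.mul (contDiffOn_pd (f := fun s y => u s y i) (h.smooth_c i) j)
  exact this.continuousOn.pow 2

/-- The mean velocity is conserved. -/
theorem mean_hasDerivAt (h : IsSol ν T u p) {t : ℝ} (ht : t ∈ Ioo 0 T) (i : Fin 3) :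
    HasDerivAt (fun s => ∫ x in cube, u s x i) 0 t := by
  have hI : t ∈ Ico 0 T := ⟨ht.1.le, ht.2⟩
  set v : Fin 3 → V → ℝ := fun i y => u t y i with hv
  have hsp : ∀ i, SP (v i) := fun i => h.sp hI i
  have hdiv : ∀ x, ∑ i, pd i (v i) x = 0 := h.divfree t hI
  have key := hasDerivAt_int (F := fun s x => u s x i)
    (mono_Ioo (f := fun s y => u s y i) (h.smooth_c i) (by norm_cast)) ht
  refine key.congr_deriv ?_
  have e1 : ∀ x, deriv (fun s => u s x i) t = ν * lap (v i) x - conv v i x - pd i (p t) x :=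
    fun x => h.dt_eq ht i x
  simp_rw [e1]
  have i1 : IntegrableOn (fun x => ν * lap (v i) x) cube := (hsp i).lap.int.const_mul ν
  have i2 : IntegrableOn (fun x => conv v i x) cube := (sp_conv hsp i).int
  have i3 : IntegrableOn (fun x => pd i (p t) x) cube := ((h.sp_p hI).pd i).int
  have i12 : IntegrableOn (fun x => ν * lap (v i) x - conv v i x) cube := i1.sub i2
  rw [integral_sub i12 i3, integral_sub i1 i2, integral_const_mul, int_pd_zero (h.sp_p hI) i]
  have t1 : ∫ x in cube, lap (v i) x = 0 := by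
    unfold lap
    have j1 : ∀ j ∈ (Finset.univ : Finset (Fin 3)),
        Integrable (fun x => pd j (pd j (v i)) x) (volume.restrict cube) := fun j _ =>
      (((hsp i).pd j).pd j).int
    rw [integral_finsetSum _ j1]
    exact Finset.sum_eq_zero fun j _ => int_pd_zero ((hsp i).pd j) j
  have t2 : ∫ x in cube, conv v i x = 0 := by
    unfold conv
    have j1 : ∀ j ∈ (Finset.univ : Finset (Fin 3)),
        Integrable (fun x => v j x * pd j (v i) x) (volume.restrict cube) := fun j _ =>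
      ((hsp j).mul ((hsp i).pd j)).int
    rw [integral_finsetSum _ j1]
    have j2 : ∀ j, ∫ x in cube, v j x * pd j (v i) x = -∫ x in cube, pd j (v j) x * v i x := by
      intro j
      rw [ibp (hsp j) (hsp i) j]
      ring
    simp_rw [j2]
    rw [Finset.sum_neg_distrib, ← integral_finsetSum _ fun j _ => (((hsp j).pd j).mul (hsp i)).int]
    have j3 : ∀ x, ∑ j, pd j (v j) x * v i x = 0 := by
      intro x
      rw [← Finset.sum_mul, hdiv, zero_mul]
    simp_rw [j3]
    simp
  rw [t1, t2]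
  ring

theorem mean_continuousOn (h : IsSol ν T u p) (i : Fin 3) :
    ContinuousOn (fun s => ∫ x in cube, u s x i) (Ico 0 T) :=
  continuousOn_int (F := fun s x => u s x i) (h.smooth_c i).continuousOn

theorem fluc_eq (h : IsSol ν T u p) {t : ℝ} (ht : t ∈ Ico 0 T) :
    fluc (u t) = energy (u t) - ∑ i, (∫ x in cube, u t x i) ^ 2 := by
  unfold fluc energy
  rw [← Finset.sum_sub_distrib]
  refine Finset.sum_congr rfl fun i _ => ?_
  have hv : SP (fun y => u t y i) := h.sp ht i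
  set m : ℝ := ∫ y in cube, u t y i with hm
  have e1 : ∀ x, (u t x i - m) ^ 2 = u t x i ^ 2 + (-(2 * m) * u t x i + m ^ 2) :=
    fun x => by ring
  simp_rw [e1]
  have i1 : IntegrableOn (fun x => u t x i ^ 2) cube := integrableOn_cube (hv.cont.pow 2)
  have i2 : IntegrableOn (fun x => -(2 * m) * u t x i) cube := hv.int.const_mul _
  have i3 : IntegrableOn (fun _ : V => m ^ 2) cube := (sp_const _).int
  have i23 : IntegrableOn (fun x => -(2 * m) * u t x i + m ^ 2) cube := i2.add i3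
  rw [integral_add i1 i23, integral_add i2 i3, integral_const_mul, ← hm]
  have e2 : ∫ _ : V in cube, m ^ 2 = m ^ 2 := by
    rw [integral_const]
    simp [Measure.real, volume_cube]
  rw [e2]
  ring

theorem fluc_hasDerivAt (h : IsSol ν T u p) {t : ℝ} (ht : t ∈ Ioo 0 T) :
    HasDerivAt (fun s => fluc (u s)) (-(2 * ν * enstrophy (u t))) t := by
  have h1 : HasDerivAt (fun s => energy (u s) - ∑ i, (∫ x in cube, u s x i) ^ 2)
      (-(2 * ν * enstrophy (u t)) - ∑ i : Fin 3, 0) t := by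
    refine (h.energy_hasDerivAt ht).sub (HasDerivAt.fun_sum fun i _ => ?_)
    have := (mean_hasDerivAt h ht i).fun_pow 2
    refine this.congr_deriv ?_
    ring
  have h2 : (fun s => fluc (u s)) =ᶠ[𝓝 t]
      fun s => energy (u s) - ∑ i, (∫ x in cube, u s x i) ^ 2 := by
    filter_upwards [Ioo_mem_nhds ht.1 ht.2] with s hs
    exact fluc_eq h ⟨hs.1.le, hs.2⟩
  refine (h1.congr_of_eventuallyEq h2).congr_deriv ?_
  simp

theorem fluc_continuousOn (h : IsSol ν T u p) :
    ContinuousOn (fun s => fluc (u s)) (Ico 0 T) := by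
  have h1 : ContinuousOn (fun s => energy (u s) - ∑ i, (∫ x in cube, u s x i) ^ 2) (Ico 0 T) :=
    h.energy_continuousOn.sub (continuousOn_finsetSum _ fun i _ => (mean_continuousOn h i).pow 2)
  exact h1.congr fun s hs => fluc_eq h hs

/-- `z = ∫|∂_e u|² + ∫|u - ū|²` satisfies `z' ≤ a E² z`. -/
theorem z_growth (h : IsSol ν T u p) (hν : 0 < ν) {e : V} {s t Y : ℝ} (hs : 0 ≤ s) (hst : s ≤ t)
    (htT : t < T) (hY : ∀ r ∈ Ioo s t, enstrophy (u r) ≤ Y) :
    dirEnergy (u t) e + fluc (u t)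
      ≤ (dirEnergy (u s) e + fluc (u s)) * Real.exp (Ca / ν ^ 3 * Y ^ 2 * (t - s)) := by
  set c : ℝ := Ca / ν ^ 3 * Y ^ 2 with hc
  set z : ℝ → ℝ := fun r => dirEnergy (u r) e + fluc (u r) with hz
  have hCa := Ca_pos
  have hsub : Icc s t ⊆ Ico 0 T := fun r hr => ⟨hs.trans hr.1, hr.2.trans_lt htT⟩
  have hzc : ContinuousOn z (Icc s t) :=
    ((dirEnergy_continuousOn h e).add (fluc_continuousOn h)).mono hsub
  have hz0 : ∀ r, 0 ≤ z r := fun r => add_nonneg (dirEnergy_nonneg _ _) (fluc_nonneg _)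
  set φ : ℝ → ℝ := fun r => z r * Real.exp (-(c * (r - s))) with hφ
  have hφc : ContinuousOn φ (Icc s t) := hzc.mul (by fun_prop)
  have hd : ∀ r ∈ Ioo s t, ∃ φ' : ℝ, HasDerivAt φ φ' r ∧ φ' ≤ 0 := by
    intro r hr
    have hr' : r ∈ Ioo 0 T := ⟨hs.trans_lt hr.1, hr.2.trans htT⟩
    obtain ⟨D', hD', hD'le⟩ := dirEnergy_deriv_le h hν hr' e
    have hzd : HasDerivAt z (D' + -(2 * ν * enstrophy (u r))) r := hD'.add (fluc_hasDerivAt h hr')
    have hed : HasDerivAt (fun r => Real.exp (-(c * (r - s)))) (Real.exp (-(c * (r - s))) * (-c)) r := by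
      have h1 : HasDerivAt (fun r : ℝ => -(c * (r - s))) (-(c * 1)) r :=
        (((hasDerivAt_id r).sub_const s).const_mul c).neg
      have h2 := h1.exp
      simpa using h2
    refine ⟨_, hzd.mul hed, ?_⟩
    have hE0 := enstrophy_nonneg (u r)
    have hEY := hY r hr
    have h1 : D' + -(2 * ν * enstrophy (u r)) ≤ c * z r := by
      have a1 : D' ≤ c * dirEnergy (u r) e := by
        refine hD'le.trans ?_
        rw [hc, mul_assoc]
        have a2 : enstrophy (u r) ^ 2 ≤ Y ^ 2 := pow_le_pow_left₀ hE0 hEY 2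
        have a3 := dirEnergy_nonneg (u r) e
        gcongr
      have a4 : 0 ≤ c * fluc (u r) := by
        have := fluc_nonneg (u r)
        positivity
      have a5 : 0 ≤ 2 * ν * enstrophy (u r) := by positivity
      simp only [hz]
      linarith
    have h2 : 0 < Real.exp (-(c * (r - s))) := Real.exp_pos _
    have h3 : (D' + -(2 * ν * enstrophy (u r))) * Real.exp (-(c * (r - s)))
        + z r * (Real.exp (-(c * (r - s))) * (-c))
        = (D' + -(2 * ν * enstrophy (u r)) - c * z r) * Real.exp (-(c * (r - s))) := by ring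
    rw [h3]
    exact mul_nonpos_of_nonpos_of_nonneg (by linarith) h2.le
  have hanti : AntitoneOn φ (Icc s t) := by
    refine antitoneOn_of_deriv_nonpos (convex_Icc s t) hφc ?_ ?_
    · rw [interior_Icc]
      intro r hr
      obtain ⟨φ', h1, _⟩ := hd r hr
      exact h1.differentiableAt.differentiableWithinAt
    · rw [interior_Icc]
      intro r hr
      obtain ⟨φ', h1, h2⟩ := hd r hr
      rw [h1.deriv]
      exact h2
  have h1 := hanti (left_mem_Icc.2 hst) (right_mem_Icc.2 hst) hst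
  simp only [hφ, sub_self, mul_zero, neg_zero, Real.exp_zero, mul_one] at h1
  have h2 : 0 < Real.exp (c * (t - s)) := Real.exp_pos _
  have h3 := mul_le_mul_of_nonneg_right h1 h2.le
  rw [mul_assoc, ← Real.exp_add] at h3
  simp only [neg_add_cancel, Real.exp_zero, mul_one] at h3
  exact h3

/-- At a blow-up every directional derivative is large at every time. -/
theorem pointwise (h : IsSol ν T u p) (hν : 0 < ν)
    (hub : ¬ ∃ M, ∀ t ∈ Ico 0 T, ∀ x i, |u t x i| ≤ M) {s : ℝ} (hs : s ∈ Ico 0 T) {e : V}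
    (he : ∑ j, e j ^ 2 = 1) :
    enstrophy (u s) ≤ (dirEnergy (u s) e + fluc (u s))
      * (Real.exp (4 * Ca / ν ^ 3 * enstrophy (u s) ^ 2 * (T - s)) - 1) := by
  have hCa := Ca_pos
  have hCc := Cc_pos
  set y0 : ℝ := enstrophy (u s) with hy0
  have hy0n : 0 ≤ y0 := enstrophy_nonneg _
  set z0 : ℝ := dirEnergy (u s) e + fluc (u s) with hz0
  have hz0n : 0 ≤ z0 := add_nonneg (dirEnergy_nonneg _ _) (fluc_nonneg _)
  rcases hy0n.eq_or_lt with h0 | hy0p
  · rw [← h0]
    simp
  set κ : ℝ := Ca / ν ^ 3 * (2 * y0) ^ 2 with hκ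
  have hκ0 : 0 < κ := by positivity
  have hκ' : 4 * Ca / ν ^ 3 * y0 ^ 2 * (T - s) = κ * (T - s) := by
    rw [hκ]; ring
  rw [hκ']
  obtain ⟨t1, ht1, ht1y⟩ := exists_large h hν hub hs (2 * y0)
  set S : Set ℝ := Icc s t1 ∩ (fun r => enstrophy (u r)) ⁻¹' Ici (2 * y0) with hS
  have hEc : ContinuousOn (fun r => enstrophy (u r)) (Icc s t1) :=
    h.enstrophy_continuousOn.mono fun r hr => ⟨hs.1.trans hr.1, hr.2.trans_lt ht1.2⟩
  have hSc : IsCompact S :=
    isCompact_Icc.of_isClosed_subset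
      (hEc.preimage_isClosed_of_isClosed isClosed_Icc isClosed_Ici) inter_subset_left
  have hSn : S.Nonempty := ⟨t1, right_mem_Icc.2 ht1.1.le, ht1y.le⟩
  obtain ⟨t2, ht2S, ht2min⟩ := hSc.exists_isLeast hSn
  have ht2y : 2 * y0 ≤ enstrophy (u t2) := ht2S.2
  have hst2 : s < t2 := by
    rcases ht2S.1.1.eq_or_lt with h1 | h1
    · exfalso
      rw [← h1] at ht2y
      linarith
    · exact h1
  have ht2T : t2 < T := ht2S.1.2.trans_lt ht1.2
  have hbelow : ∀ r ∈ Ioo s t2, enstrophy (u r) ≤ 2 * y0 := by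
    intro r hr
    by_contra hcon
    push Not at hcon
    have : r ∈ S := ⟨⟨hr.1.le, hr.2.le.trans ht2S.1.2⟩, hcon.le⟩
    exact absurd (ht2min this) (not_le.2 hr.2)
  set g : ℝ → ℝ := fun r => z0 * Real.exp (κ * (r - s)) with hg
  have hgc : Continuous g := by fun_prop
  have hmaj : ∀ r ∈ Ioo s t2, ∃ e : V, ∑ j, e j ^ 2 = 1 ∧
      dirEnergy (u r) e + fluc (u r) ≤ g r := by
    intro r hr
    refine ⟨e, he, ?_⟩
    exact z_growth h hν hs.1 hr.1.le (hr.2.trans ht2T)
      (fun q hq => hbelow q ⟨hq.1, hq.2.trans hr.2⟩)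
  have hinv := inv_diff h hν hs.1 hst2.le ht2T hgc.continuousOn.integrableOn_Icc hmaj
    (ε := y0 / 2) (by positivity)
  have hint : ∫ r in s..t2, g r = z0 * (Real.exp (κ * (t2 - s)) - 1) / κ := by
    have hd : ∀ r ∈ uIcc s t2, HasDerivAt (fun r => z0 * Real.exp (κ * (r - s)) / κ) (g r) r := by
      intro r _
      have h1 : HasDerivAt (fun r : ℝ => κ * (r - s)) (κ * 1) r :=
        ((hasDerivAt_id r).sub_const s).const_mul κ
      have h2 := ((h1.exp.const_mul z0).div_const κ)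
      refine h2.congr_deriv ?_
      simp only [hg]
      field_simp
    rw [intervalIntegral.integral_eq_sub_of_hasDerivAt hd (hgc.intervalIntegrable _ _)]
    simp only [sub_self, mul_zero, Real.exp_zero, mul_one]
    ring
  rw [hint] at hinv
  have h1 : Real.exp (κ * (t2 - s)) ≤ Real.exp (κ * (T - s)) := by
    apply Real.exp_le_exp.2
    exact mul_le_mul_of_nonneg_left (by linarith) hκ0.le
  have h2 : 1 / (4 * y0) ≤ 1 / (y0 + y0 / 2) - 1 / (enstrophy (u t2) + y0 / 2) := by
    have a1 : 1 / (enstrophy (u t2) + y0 / 2) ≤ 1 / (2 * y0 + y0 / 2) :=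
      one_div_le_one_div_of_le (by positivity) (by linarith)
    have a2 : 1 / (y0 + y0 / 2) = 2 / 3 * (1 / y0) := by field_simp; norm_num
    have a3 : 1 / (2 * y0 + y0 / 2) = 2 / 5 * (1 / y0) := by field_simp; norm_num
    have a4 : 1 / (4 * y0) = 1 / 4 * (1 / y0) := by field_simp
    have a5 : 0 < 1 / y0 := by positivity
    linarith
  have h3 : 4 * Cc / ν ^ 3 * (z0 * (Real.exp (κ * (t2 - s)) - 1) / κ)
      ≤ z0 * (Real.exp (κ * (T - s)) - 1) / (4 * y0 ^ 2) := by
    have b1 : 0 ≤ Real.exp (κ * (t2 - s)) - 1 := by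
      have := Real.one_le_exp (x := κ * (t2 - s)) (mul_nonneg hκ0.le (by linarith))
      linarith
    have b2 : 4 * Cc / ν ^ 3 ≤ Ca / ν ^ 3 :=
      div_le_div_of_nonneg_right le_Ca1 (pow_pos hν 3).le
    have b3 : Ca / ν ^ 3 = κ / (4 * y0 ^ 2) := by
      rw [hκ]
      field_simp
      ring
    calc 4 * Cc / ν ^ 3 * (z0 * (Real.exp (κ * (t2 - s)) - 1) / κ)
        ≤ Ca / ν ^ 3 * (z0 * (Real.exp (κ * (t2 - s)) - 1) / κ) :=
          mul_le_mul_of_nonneg_right b2 (by positivity)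
      _ = z0 * (Real.exp (κ * (t2 - s)) - 1) / (4 * y0 ^ 2) := by
          rw [b3]
          field_simp
      _ ≤ z0 * (Real.exp (κ * (T - s)) - 1) / (4 * y0 ^ 2) := by gcongr
  have h4 : 1 / (4 * y0) ≤ z0 * (Real.exp (κ * (T - s)) - 1) / (4 * y0 ^ 2) := by linarith
  rw [div_le_div_iff₀ (by positivity) (by positivity)] at h4
  have h5 : 4 * y0 * y0 ≤ 4 * y0 * (z0 * (Real.exp (κ * (T - s)) - 1)) := by nlinarith
  exact le_of_mul_le_mul_left h5 (by positivity)

end Q176.AD
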