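import Pool.Agent.Q176.AD.A7

/-!
Blow-up criteria: every direction blows up faster than logarithmically; the determinant of the
enstrophy matrix.
-/

set_option autoImplicit false

open MeasureTheory Set Filter Topology
open scoped InnerProductSpace ENNReal ContDiff NNReal

namespace Q176.AD

open H459R3.NS

variable {ν T : ℝ} {u : ℝ → V → V} {p : ℝ → V → ℝ}

theorem det_nonneg (h : IsSol ν T u p) {t : ℝ} (hI : t ∈ Ico 0 T) :
    0 ≤ (enstrophyMatrix (u t) + fluc (u t) • (1 : Matrix (Fin 3) (Fin 3) ℝ)).det := by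
  obtain ⟨b, hb⟩ := exists_eigen (v := fun i y => u t y i) (fun i => h.sp hI i)
    (Nm fun i y => u t y i)
  have h5 : (enstrophyMatrix (u t) + fluc (u t) • (1 : Matrix (Fin 3) (Fin 3) ℝ)).det
      = ∏ k, (Dd (fun i y => u t y i) (b k) + Nm fun i y => u t y i) := hb.symm
  rw [h5]
  exact Finset.prod_nonneg fun k _ => add_nonneg (Dd_nonneg _ _) (Nm_nonneg _)

/-- The determinant bounds the growth of the enstrophy. -/
theorem deriv_le_det (h : IsSol ν T u p) (hν : 0 < ν) {t : ℝ} (ht : t ∈ Ioo 0 T) :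
    ∃ E' : ℝ, HasDerivAt (fun s => enstrophy (u s)) E' t ∧
      E' ≤ Ca / ν ^ 3 * (enstrophyMatrix (u t)
        + fluc (u t) • (1 : Matrix (Fin 3) (Fin 3) ℝ)).det := by
  have hI : t ∈ Ico 0 T := ⟨ht.1.le, ht.2⟩
  refine ⟨_, h.enstrophy_hasDerivAt ht, ?_⟩
  have h1 := prod_det h hν hI
  have h2 : -(2 * cub (fun i y => u t y i)) ≤ 2 * |cub (fun i y => u t y i)| := by
    have := neg_abs_le (cub (fun i y => u t y i))
    linarith
  have h3 : 0 ≤ ν * palin (u t) := mul_nonneg hν.le (palin_nonneg _)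
  have hdet := det_nonneg h hI
  have h4 : Cc / ν ^ 3 ≤ Ca / ν ^ 3 := by
    refine div_le_div_of_nonneg_right ?_ (pow_pos hν 3).le
    have := le_Ca1
    have := Cc_pos
    linarith
  have h5 := mul_le_mul_of_nonneg_right h4 hdet
  linarith

/-- The criterion for the determinant. -/
theorem det_criterion (h : IsSol ν T u p) (hν : 0 < ν)
    (hub : ¬ ∃ M, ∀ t ∈ Ico 0 T, ∀ x i, |u t x i| ≤ M) {γ : ℝ → ℝ}
    (hγ : IntegrableOn γ (Ioo 0 T)) :
    ∃ t ∈ Ioo 0 T, γ t * enstrophy (u t) < (enstrophyMatrix (u t)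
        + fluc (u t) • (1 : Matrix (Fin 3) (Fin 3) ℝ)).det := by
  by_contra hcon
  push Not at hcon
  apply hub
  have hCa := Ca_pos
  set g : ℝ → ℝ := fun t => Ca / ν ^ 3 * |γ t| with hg
  have hgi : IntegrableOn g (Ioo 0 T) := hγ.abs.const_mul _
  have hg0 : ∀ t, 0 ≤ g t := fun t => by positivity
  have hgI : ∀ t ∈ Ico 0 T, IntegrableOn g (Icc 0 t) := by
    intro t ht
    rw [integrableOn_Icc_iff_integrableOn_Ioo]
    exact hgi.mono_set (Ioo_subset_Ioo le_rfl ht.2.le)
  refine bounded_of_enstrophy h hν (B := enstrophy (u 0) * Real.exp (∫ s in Ioo 0 T, g s))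
    fun t ht => ?_
  refine h.gron_enstrophy ht (fun s _ => hg0 s) (hgI t ht) ?_ ?_
  · rw [intervalIntegral.integral_of_le ht.1, ← integral_Ioc_eq_integral_Ioo,
      integral_Ioc_eq_integral_Ioo, integral_Ioc_eq_integral_Ioo]
    exact setIntegral_mono_set hgi (Eventually.of_forall hg0)
      (Ioo_subset_Ioo le_rfl ht.2.le).eventuallyLE
  · intro s hs
    have hs' : s ∈ Ioo 0 T := ⟨hs.1, hs.2.trans ht.2⟩
    obtain ⟨E', hE', hle⟩ := deriv_le_det h hν hs'
    have e1 := hE'.unique (h.enstrophy_hasDerivAt hs')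
    rw [← e1]
    refine hle.trans ?_
    have h1 := hcon s hs'
    have h2 : γ s * enstrophy (u s) ≤ |γ s| * enstrophy (u s) :=
      mul_le_mul_of_nonneg_right (le_abs_self _) (enstrophy_nonneg _)
    have h3 := mul_le_mul_of_nonneg_left (h1.trans h2) (show 0 ≤ Ca / ν ^ 3 by positivity)
    simp only [hg]
    linarith

/-- The antiderivative of `log (1 / (T - r))`. -/
theorem hasDerivAt_F {r : ℝ} (hr : r < T) :
    HasDerivAt (fun r => -((T - r) * (1 - Real.log (T - r)))) (-Real.log (T - r)) r := by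
  have h0 : T - r ≠ 0 := by linarith [hr] |> fun h : T - r > 0 => h.ne'
  have h1 : HasDerivAt (fun r : ℝ => T - r) (-1) r := by
    simpa using (hasDerivAt_id r).const_sub T
  have h2 : HasDerivAt (fun r => 1 - Real.log (T - r)) (-(-1 / (T - r))) r :=
    (h1.log h0).const_sub 1
  refine (h1.mul h2).neg.congr_deriv ?_
  field_simp
  ring

/-- All directional derivatives blow up, faster than logarithmically. -/
theorem log_blowup (h : IsSol ν T u p) (hν : 0 < ν) (hT : 0 < T)
    (hub : ¬ ∃ M, ∀ t ∈ Ico 0 T, ∀ x i, |u t x i| ≤ M) (K : ℝ) {s0 : ℝ} (hs0 : s0 < T) :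
    ∃ t ∈ Ioo s0 T, 0 < t ∧ ∀ e : V, ∑ j, e j ^ 2 = 1 →
      K * Real.log (1 / (T - t)) < dirEnergy (u t) e := by
  by_contra hcon
  push Not at hcon
  have hCa := Ca_pos
  have hCc := Cc_pos
  have hE0 := energy_nonneg (u 0)
  set K' : ℝ := |K| + energy (u 0) + 1 with hK'
  have hK'0 : 0 < K' := by positivity
  -- the time after which `log (1 / (T - t)) ≥ 1`
  set s1 : ℝ := max (max s0 0) (T - Real.exp (-1)) with hs1
  have hs1T : s1 < T := by
    rw [hs1, max_lt_iff, max_lt_iff]
    exact ⟨⟨hs0, hT⟩, by linarith [Real.exp_pos (-1)]⟩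
  have hlog : ∀ t, s1 ≤ t → t < T → 1 ≤ -Real.log (T - t) := by
    intro t ht htT
    have h1 : T - t ≤ Real.exp (-1) := by
      have := le_max_right (max s0 0) (T - Real.exp (-1))
      linarith
    have h2 : Real.log (T - t) ≤ -1 := by
      rw [Real.log_le_iff_le_exp (by linarith)]
      exact h1
    linarith
  set g : ℝ → ℝ := fun t => K' * (-Real.log (T - t)) with hg
  have hs10 : 0 ≤ s1 := le_max_of_le_left (le_max_right _ _)
  have henergy : ∀ t ∈ Ico 0 T, fluc (u t) ≤ energy (u 0) := by
    intro t ht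
    refine (fluc_le_energy h ht).trans ?_
    have hc : ContinuousOn (fun s => energy (u s)) (Icc 0 t) :=
      h.energy_continuousOn.mono fun s hs => ⟨hs.1, hs.2.trans_lt ht.2⟩
    have hanti : AntitoneOn (fun s => energy (u s)) (Icc 0 t) := by
      refine antitoneOn_of_deriv_nonpos (convex_Icc 0 t) hc ?_ ?_
      · rw [interior_Icc]
        intro r hr
        exact (h.energy_hasDerivAt ⟨hr.1, hr.2.trans ht.2⟩).differentiableAt.differentiableWithinAt
      · rw [interior_Icc]
        intro r hr
        rw [(h.energy_hasDerivAt ⟨hr.1, hr.2.trans ht.2⟩).deriv]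
        have := enstrophy_nonneg (u r)
        have : 0 ≤ 2 * ν * enstrophy (u r) := by positivity
        linarith
    exact hanti (left_mem_Icc.2 ht.1) (right_mem_Icc.2 ht.1) ht.1
  have hmaj : ∀ r ∈ Ioo s1 T, ∃ e : V, ∑ j, e j ^ 2 = 1 ∧
      dirEnergy (u r) e + fluc (u r) ≤ g r := by
    intro r hr
    have hr0 : 0 < r := hs10.trans_lt hr.1
    have hrs : s0 < r := ((le_max_left _ _).trans (le_max_left _ _)).trans_lt hr.1
    obtain ⟨e, he, hle⟩ := hcon r ⟨hrs, hr.2⟩ hr0
    refine ⟨e, he, ?_⟩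
    have h1 := henergy r ⟨hr0.le, hr.2⟩
    have h2 := hlog r hr.1.le hr.2
    have h3 : Real.log (1 / (T - r)) = -Real.log (T - r) := by
      rw [one_div, Real.log_inv]
    rw [h3] at hle
    have h4 : K * (-Real.log (T - r)) ≤ |K| * (-Real.log (T - r)) :=
      mul_le_mul_of_nonneg_right (le_abs_self K) (by linarith)
    have h5 : energy (u 0) ≤ energy (u 0) * (-Real.log (T - r)) :=
      le_mul_of_one_le_right hE0 h2
    simp only [hg, hK']
    nlinarith
  have hgc : ContinuousOn g (Iio T) := by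
    intro r hr
    have h0 : T - r ≠ 0 := by
      have : r < T := hr
      have h : 0 < T - r := by linarith
      exact h.ne'
    have h1 : ContinuousAt (fun t => K' * (-Real.log (T - t))) r :=
      continuousAt_const.mul (((continuousAt_const.sub continuousAt_id).log h0).neg)
    exact h1.continuousWithinAt
  -- the lower bound of the enstrophy
  have hlow : ∀ s, s1 ≤ s → s < T →
      ν ^ 3 ≤ 4 * Cc * (enstrophy (u s) * (K' * (2 * ((T - s) * (-Real.log (T - s)))))) := by
    intro s hs hsT
    have hl := hlog s hs hsT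
    have hτ : 0 < T - s := by linarith
    refine rate h hν hub (g := g) ⟨hs10.trans hs, hsT⟩ (fun t ht => ?_)
      (fun r hr => hmaj r ⟨hs.trans_lt hr.1, hr.2⟩) (fun t ht => ?_)
    · exact (hgc.mono fun r hr => lt_of_le_of_lt hr.2 ht.2).integrableOn_Icc
    · have hd : ∀ r ∈ uIcc s t, HasDerivAt
          (fun r => K' * (-((T - r) * (1 - Real.log (T - r))))) (g r) r := by
        intro r hr
        rw [uIcc_of_le ht.1.le] at hr
        exact (hasDerivAt_F (lt_of_le_of_lt hr.2 ht.2)).const_mul K'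
      have hi : IntervalIntegrable g volume s t :=
        (hgc.mono (by
          rw [uIcc_of_le ht.1.le]
          exact fun r hr => lt_of_le_of_lt hr.2 ht.2)).intervalIntegrable
      rw [intervalIntegral.integral_eq_sub_of_hasDerivAt hd hi]
      have ht0 : 0 < T - t := by linarith [ht.2]
      have h1 : 0 ≤ (T - t) * (1 - Real.log (T - t)) := by
        have := hlog t (hs.trans ht.1.le) ht.2
        refine mul_nonneg ht0.le (by linarith)
      have h2 : (T - s) * (1 - Real.log (T - s)) ≤ 2 * ((T - s) * (-Real.log (T - s))) := by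
        nlinarith
      have h3 := mul_le_mul_of_nonneg_left h2 hK'0.le
      have h4 := mul_nonneg hK'0.le h1
      linarith
  -- the function `energy + κ log (- log (T - s))` is nonincreasing
  set κ : ℝ := ν ^ 3 * ν / (4 * Cc * K') with hκ
  have hκ0 : 0 < κ := by positivity
  set Φ : ℝ → ℝ := fun s => energy (u s) + κ * Real.log (-Real.log (T - s)) with hΦ
  have hder : ∀ s, s1 < s → s < T → HasDerivAt Φ
      (-(2 * ν * enstrophy (u s)) + κ * (1 / (T - s) / (-Real.log (T - s)))) s := by
    intro s hs hsT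
    have hτ : 0 < T - s := by linarith
    have hl := hlog s hs.le hsT
    have h1 : HasDerivAt (fun r : ℝ => T - r) (-1) s := by
      simpa using (hasDerivAt_id s).const_sub T
    have h2 : HasDerivAt (fun r => -Real.log (T - r)) (1 / (T - s)) s := by
      refine (h1.log hτ.ne').neg.congr_deriv ?_
      ring
    have h3 : HasDerivAt (fun r => Real.log (-Real.log (T - r)))
        (1 / (T - s) / (-Real.log (T - s))) s := h2.log (by linarith)
    exact (h.energy_hasDerivAt ⟨hs10.trans_lt hs, hsT⟩).add (h3.const_mul κ)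
  have hder0 : ∀ s, s1 < s → s < T →
      -(2 * ν * enstrophy (u s)) + κ * (1 / (T - s) / (-Real.log (T - s))) ≤ 0 := by
    intro s hs hsT
    have hτ : 0 < T - s := by linarith
    have hl := hlog s hs.le hsT
    have hw : 0 < (T - s) * (-Real.log (T - s)) := mul_pos hτ (by linarith)
    have h1 := hlow s hs.le hsT
    have h2 : κ * (1 / (T - s) / (-Real.log (T - s))) = κ / ((T - s) * (-Real.log (T - s))) := by
      rw [div_div, mul_one_div]
    rw [h2]
    have h3 : κ / ((T - s) * (-Real.log (T - s))) ≤ 2 * ν * enstrophy (u s) := by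
      rw [div_le_iff₀ hw, hκ, div_le_iff₀ (by positivity)]
      have h4 := mul_le_mul_of_nonneg_right h1 hν.le
      nlinarith
    linarith
  obtain ⟨s2, hs2a, hs2b⟩ := exists_between hs1T
  have hanti : ∀ s, s2 ≤ s → s < T → Φ s ≤ Φ s2 := by
    intro s hs hsT
    have hc : ContinuousOn Φ (Icc s2 s) := fun r hr =>
      (hder r (hs2a.trans_le hr.1) (hr.2.trans_lt hsT)).continuousAt.continuousWithinAt
    have h1 : AntitoneOn Φ (Icc s2 s) := by
      refine antitoneOn_of_deriv_nonpos (convex_Icc s2 s) hc ?_ ?_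
      · rw [interior_Icc]
        intro r hr
        exact (hder r (hs2a.trans hr.1) (hr.2.trans hsT)).differentiableAt.differentiableWithinAt
      · rw [interior_Icc]
        intro r hr
        rw [(hder r (hs2a.trans hr.1) (hr.2.trans hsT)).deriv]
        exact hder0 r (hs2a.trans hr.1) (hr.2.trans hsT)
    exact h1 (left_mem_Icc.2 hs) (right_mem_Icc.2 hs) hs
  -- the contradiction
  set R : ℝ := |Φ s2| / κ + 1 + Real.log (-Real.log (T - s2)) ^ 2 + 1 with hR
  have hl2 := hlog s2 hs2a.le hs2b
  set s : ℝ := T - Real.exp (-Real.exp R) with hs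
  have hsT : s < T := by linarith [Real.exp_pos (-Real.exp R)]
  have hTs : T - s = Real.exp (-Real.exp R) := by rw [hs]; ring
  have hs2s : s2 ≤ s := by
    have h1 : T - s ≤ T - s2 := by
      rw [hTs]
      have h3 : Real.log (-Real.log (T - s2)) ≤ R := by
        rw [hR]
        have : 0 ≤ |Φ s2| / κ := by positivity
        nlinarith [sq_nonneg (Real.log (-Real.log (T - s2)) - 1)]
      have h4 : -Real.log (T - s2) ≤ Real.exp R := by
        rw [← Real.exp_log (show 0 < -Real.log (T - s2) by linarith)]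
        exact Real.exp_le_exp.2 h3
      have h5 : -Real.exp R ≤ Real.log (T - s2) := by linarith
      calc Real.exp (-Real.exp R) ≤ Real.exp (Real.log (T - s2)) := Real.exp_le_exp.2 h5
        _ = T - s2 := Real.exp_log (by linarith)
    linarith
  have h1 := hanti s hs2s hsT
  have h2 : Φ s = energy (u s) + κ * R := by
    simp only [hΦ]
    rw [hTs, Real.log_exp, neg_neg, Real.log_exp]
  have h3 : κ * R ≤ |Φ s2| := by
    have := energy_nonneg (u s)
    have := le_abs_self (Φ s2)
    linarith
  have h4 : |Φ s2| < κ * R := by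
    rw [hR]
    have h5 : κ * (|Φ s2| / κ) = |Φ s2| := by field_simp
    nlinarith [sq_nonneg (Real.log (-Real.log (T - s2)))]
  linarith

end Q176.AD
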